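import Pool.Agent.W2helper77.OM.Lat

/-!
# Accessible vertices of all macroscopic clusters, all scales: the lattice theorem
-/

set_option autoImplicit false

namespace Pool.Agent.W2helper77.OM

open H974 H12S Finset H389NS H984P H984N H342P H342L H342T
open Pool.Agent.W424.OD
open Pool.Agent.W2helper82.OA (S_FINL)
open Pool.Agent.W2helper82.OA.P20 (scale ext_of_big)
open Filter Topology

/-- the bounds at all scales -/
def Bds (c C ε : ℝ) (n : ℕ) (F : Finset Edg) (v : Vtx) : Prop :=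
  (c * (n : ℝ) ^ (4 / 3 : ℝ) ≤ ((accessible n F v).card : ℝ) ∧
    ((accessible n F v).card : ℝ) ≤ C * (n : ℝ) ^ (4 / 3 : ℝ)) ∧
  ∀ m : ℕ, 1 ≤ m → m ≤ n → c * ((n : ℝ) / m) ^ (4 / 3 - ε) ≤ (bxs m n F v : ℝ) ∧
    (bxs m n F v : ℝ) ≤ C * ((n : ℝ) / m) ^ (4 / 3 + ε)

/-- all macroscopic clusters -/
theorem mac_all (hG : S_FINL) {ρ δ ε : ℝ} (hρ : 0 < ρ) (hδ : 0 < δ) (hε : 0 < ε) :
    ∃ (c C : ℝ) (n0 : ℕ), 0 < c ∧ 0 < C ∧ ∀ n : ℕ, n0 ≤ n →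
      Pr (fun _ => (1/2:ℝ)) (RE 0 n 0 n) (fun F => ∃ v, Mac ρ n F v ∧ ¬ Bds c C ε n F v) ≤ δ := by
  obtain ⟨C, hC, hup⟩ := upp Pool.Agent.W424.KI.u3 hρ (half_pos hδ) hε
  obtain ⟨c, n0, hc, hlo⟩ := low hG hρ (half_pos hδ) hε
  refine ⟨c, C, max n0 1, hc, hC, fun n hn => ?_⟩
  have h1 := hup n ((le_max_right _ _).trans hn)
  have h2 := hlo n ((le_max_left _ _).trans hn)
  refine le_trans (b := Pr (fun _ => (1/2:ℝ)) (RE 0 n 0 n) (fun F =>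
    (∃ v, Mac ρ n F v ∧ ¬ (((accessible n F v).card : ℝ) ≤ C * (n : ℝ) ^ (4/3 : ℝ) ∧
        ∀ m : ℕ, 1 ≤ m → m ≤ n → (bxs m n F v : ℝ) ≤ C * ((n : ℝ) / m) ^ (4/3 + ε))) ∨
    ∃ v, Mac ρ n F v ∧ ¬ (c * (n : ℝ) ^ (4/3 : ℝ) ≤ ((accessible n F v).card : ℝ) ∧
        ∀ m : ℕ, 1 ≤ m → m ≤ n → c * ((n : ℝ) / m) ^ (4/3 - ε) ≤ (bxs m n F v : ℝ)))) ?_
    ((Pr_or_le okh' _ _ _).trans (by linarith))
  refine Pr_mono okh' ?_
  rintro F _ ⟨v, hv, hb⟩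
  by_contra hcon
  rw [not_or] at hcon
  obtain ⟨g1, g2⟩ := hcon
  have k1 : ((accessible n F v).card : ℝ) ≤ C * (n : ℝ) ^ (4/3 : ℝ) ∧
      ∀ m : ℕ, 1 ≤ m → m ≤ n → (bxs m n F v : ℝ) ≤ C * ((n : ℝ) / m) ^ (4/3 + ε) := by
    by_contra h
    exact g1 ⟨v, hv, h⟩
  have k2 : c * (n : ℝ) ^ (4/3 : ℝ) ≤ ((accessible n F v).card : ℝ) ∧
      ∀ m : ℕ, 1 ≤ m → m ≤ n → c * ((n : ℝ) / m) ^ (4/3 - ε) ≤ (bxs m n F v : ℝ) := by
    by_contra h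
    exact g2 ⟨v, hv, h⟩
  exact hb ⟨⟨k2.1, k1.1⟩, fun m hm hmn => ⟨k2.2 m hm hmn, k1.2 m hm hmn⟩⟩

/-- a largest cluster is macroscopic, on `Big` -/
theorem mac_of_largest {n m K' : ℕ} (hm : 0 < m) (hK : n ≤ K' * m) (hK' : 1 ≤ K')
    {F : Finset Edg} (hF : F ⊆ Plain.edges n) {v : Vtx} (hL : Plain.Largest n F v)
    (hb : Big n (m : ℤ) (↑F)) : Mac (1 / (K' : ℝ)) n F v := by
  obtain ⟨a, b, -, ha, hb', hab⟩ := ext_of_big hm hF hL hb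
  refine ⟨hL.1, a, ha, b, hb', ?_⟩
  have hK0 : (0 : ℝ) < K' := by exact_mod_cast hK'
  have h1 : 1 / (K' : ℝ) * n ≤ m := by
    rw [one_div, inv_mul_le_iff₀ hK0]
    exact_mod_cast hK
  have h2 : (m : ℤ) ^ 2 ≤ Plain.sqDist a b := by
    unfold Plain.sqDist
    have h0 : (0 : ℤ) < m := by exact_mod_cast hm
    rcases hab with h | h <;> nlinarith [sq_nonneg (a.1 - b.1), sq_nonneg (a.2 - b.2)]
  have h3 : ((m : ℝ)) ^ 2 ≤ (Plain.sqDist a b : ℝ) := by exact_mod_cast h2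
  refine le_trans (pow_le_pow_left₀ (by positivity) h1 2) h3

/-- the largest clusters are macroscopic -/
theorem largest_mac {δ : ℝ} (hδ : 0 < δ) : ∃ (ρ : ℝ) (n0 : ℕ), 0 < ρ ∧ ∀ n : ℕ, n0 ≤ n →
    Pr (fun _ => (1/2:ℝ)) (RE 0 n 0 n) (fun F => ∃ v, Plain.Largest n F v ∧ ¬ Mac ρ n F v) ≤
      δ := by
  obtain ⟨K', N1, hK', hsc⟩ := scale δ hδ
  have hK0 : (0 : ℝ) < K' := by exact_mod_cast hK'
  refine ⟨1 / K', N1, by positivity, fun n hn => ?_⟩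
  obtain ⟨m, hm1, hm2, hm3, hm4⟩ := hsc n hn
  refine le_trans (Pr_mono okh' ?_) hm4
  rintro F hF ⟨v, hL, hv⟩ hbig
  exact hv (mac_of_largest hm3 hm1 hK' (by rw [Plain.edges_eq]; exact hF) hL hbig)

/-- the largest clusters -/
theorem largest_all (hG : S_FINL) {δ ε : ℝ} (hδ : 0 < δ) (hε : 0 < ε) :
    ∃ (c C : ℝ) (n0 : ℕ), 0 < c ∧ 0 < C ∧ ∀ n : ℕ, n0 ≤ n →
      Pr (fun _ => (1/2:ℝ)) (RE 0 n 0 n) (fun F => ∃ v, Plain.Largest n F v ∧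
        ¬ Bds c C ε n F v) ≤ δ := by
  obtain ⟨ρ, n1, hρ, h1⟩ := largest_mac (half_pos hδ)
  obtain ⟨c, C, n0, hc, hC, h2⟩ := mac_all hG hρ (half_pos hδ) hε
  refine ⟨c, C, max n0 n1, hc, hC, fun n hn => ?_⟩
  have h3 := h1 n ((le_max_right _ _).trans hn)
  have h4 := h2 n ((le_max_left _ _).trans hn)
  refine le_trans (b := Pr (fun _ => (1/2:ℝ)) (RE 0 n 0 n) (fun F =>
    (∃ v, Plain.Largest n F v ∧ ¬ Mac ρ n F v) ∨ ∃ v, Mac ρ n F v ∧ ¬ Bds c C ε n F v)) ?_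
    ((Pr_or_le okh' _ _ _).trans (by linarith))
  refine Pr_mono okh' ?_
  rintro F _ ⟨v, hL, hb⟩
  by_cases h : Mac ρ n F v
  · exact Or.inr ⟨v, h, hb⟩
  · exact Or.inl ⟨v, hL, h⟩

/-- from bad events to `Plain.prob` -/
theorem prob_of {n : ℕ} {δ : ℝ} {P Q : Finset Edg → Vtx → Prop}
    (h : Pr (fun _ => (1/2:ℝ)) (RE 0 n 0 n) (fun F => ∃ v, P F v ∧ ¬ Q F v) ≤ δ) :
    1 - δ ≤ Plain.prob n (fun F => ∀ v, P F v → Q F v) := by
  have h1 := Plain.prob_not n (fun F => ∀ v, P F v → Q F v)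
  have h2 : Plain.prob n (fun F => ¬ ∀ v, P F v → Q F v) ≤ δ := by
    refine le_trans (Plain.prob_le_of_pr (B := fun F => ∃ v, P F v ∧ ¬ Q F v) ?_) h
    intro F _ hF
    push Not at hF
    exact hF
  linarith

theorem prob_le_one' (n : ℕ) (A : Finset Plain.Edge → Prop) : Plain.prob n A ≤ 1 := by
  rw [Plain.prob_eq]
  exact Pr_le_one okh' _ _

theorem prob_mono' {n : ℕ} {A B : Finset Plain.Edge → Prop} (h : ∀ F, A F → B F) :
    Plain.prob n A ≤ Plain.prob n B := by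
  rw [Plain.prob_eq, Plain.prob_eq]
  exact Pr_mono okh' fun F _ => h F

/-- the exponent `4/3` with probability tending to one -/
theorem tends {ε : ℝ} (hε : 0 < ε)
    (h2 : ∀ δ ε : ℝ, 0 < δ → 0 < ε → ∃ (c C : ℝ) (n₀ : ℕ), 0 < c ∧ 0 < C ∧
      ∀ n : ℕ, n₀ ≤ n → 1 - δ ≤ Plain.prob n (fun F => ∀ v, Plain.Largest n F v →
        Bds c C ε n F v)) :
    Tendsto (fun n : ℕ => Plain.prob n (fun F => ∀ v, Plain.Largest n F v →
      (n : ℝ) ^ (4 / 3 - ε) < ((accessible n F v).card : ℝ) ∧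
        ((accessible n F v).card : ℝ) < (n : ℝ) ^ (4 / 3 + ε))) atTop (𝓝 1) := by
  rw [tendsto_order]
  constructor
  · intro a ha
    obtain ⟨c, C, n0, hc, hC, h⟩ := h2 ((1 - a) / 2) 1 (by linarith) one_pos
    have hlim : Tendsto (fun n : ℕ => (n : ℝ) ^ ε) atTop atTop :=
      (tendsto_rpow_atTop hε).comp tendsto_natCast_atTop_atTop
    filter_upwards [eventually_ge_atTop (max n0 1), hlim.eventually_gt_atTop (1 / c),
      hlim.eventually_gt_atTop C] with n hn h3 h4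
    have h5 := h n ((le_max_left _ _).trans hn)
    have hn1 : 1 ≤ n := (le_max_right _ _).trans hn
    have hn0 : (0 : ℝ) < n := by exact_mod_cast hn1
    refine lt_of_lt_of_le (by linarith) (h5.trans (prob_mono' ?_))
    intro F hF v hv
    obtain ⟨⟨g1, g2⟩, -⟩ := hF v hv
    constructor
    · refine lt_of_lt_of_le ?_ g1
      rw [sub_eq_add_neg, Real.rpow_add hn0, Real.rpow_neg hn0.le, mul_comm]
      have h6 : ((n : ℝ) ^ ε)⁻¹ < c := by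
        rw [one_div, inv_lt_comm₀ hc (by positivity)] at h3
        exact h3
      have h7 : (0 : ℝ) < (n : ℝ) ^ (4 / 3 : ℝ) := by positivity
      exact mul_lt_mul_of_pos_right h6 h7
    · refine lt_of_le_of_lt g2 ?_
      rw [Real.rpow_add hn0, mul_comm]
      have h7 : (0 : ℝ) < (n : ℝ) ^ (4 / 3 : ℝ) := by positivity
      exact mul_lt_mul_of_pos_left h4 h7
  · intro a ha
    exact Eventually.of_forall fun n => (prob_le_one' n _).trans_lt ha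

end Pool.Agent.W2helper77.OM
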