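import Pool.Agent.W2helper77.OM.Grid
import Pool.Agent.W2helper75.OB.Up
import Pool.Agent.W2helper75.OA.P20

/-!
# The outer boundary of the limits: the Minkowski dimension
-/

set_option autoImplicit false

namespace Pool.Agent.W2helper77.OM

open H974 H12S Finset H389NS H984P H984N H342P H342L H342T
open MeasureTheory Filter Topology Pool.Agent.W92.DP Pool.Agent.W822.PD Pool.Agent.W978.PDUL
open Pool.Agent.W424.OD Pool.Agent.W462.DPL
open Pool.Agent.W2helper75.OB (EvU EvU_open EvU_of lim_leO oB_sub range_closed)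
open Pool.Agent.W2helper82.OA (S_FINL)
open scoped ENNReal NNReal

/-! ### The sum -/

theorem ph_sum_le {C : ℝ} (hC : 0 ≤ C) {d : ℝ} (hd : 0 < d) : ∃ A : ℝ, 0 < A ∧
    ∀ M : ℕ, 1 ≤ M → ∑ w ∈ Finset.Icc (0:ℤ) M ×ˢ Finset.Icc (0:ℤ) M,
      ph C (2/3) (min ⌊d * M⌋ (bdist M w)) ≤ A * (M : ℝ) ^ (4/3 : ℝ) := by
  refine ⟨4 * (C + 1) * (2 / d) ^ (2/3 : ℝ) + 8 * (1 + C * 3), by positivity, ?_⟩
  intro M hM1
  have h0 : ∑ w ∈ Finset.Icc (0:ℤ) M ×ˢ Finset.Icc (0:ℤ) M,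
      ph C (2/3) (min ⌊d * M⌋ (bdist M w)) ≤
      ((M : ℝ) + 1) ^ 2 * ph C (2/3) ⌊d * M⌋ +
        4 * ((M : ℝ) + 1) * ∑ x ∈ Finset.Icc (0:ℤ) M, ph C (2/3) x := by
    refine (Finset.sum_le_sum fun w _ => ph_min (s := 2/3) hC M ⌊d * M⌋ w).trans (le_of_eq ?_)
    rw [Finset.sum_product]
    have hc : (Finset.Icc (0:ℤ) M).card = M + 1 := by
      rw [Int.card_Icc]; omega
    simp_rw [Finset.sum_add_distrib, Finset.sum_const, hc, sum_refl M (ph C (2/3))]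
    simp_rw [nsmul_eq_mul]
    have hr : ∑ x ∈ Finset.Icc (0:ℤ) M, ((M + 1 : ℕ) : ℝ) * ph C (2/3) (M - x) =
        ((M + 1 : ℕ) : ℝ) * ∑ x ∈ Finset.Icc (0:ℤ) M, ph C (2/3) x := by
      rw [← Finset.mul_sum, sum_refl M (ph C (2/3))]
    have hr2 : ∑ x ∈ Finset.Icc (0:ℤ) M, ((M + 1 : ℕ) : ℝ) * ph C (2/3) x =
        ((M + 1 : ℕ) : ℝ) * ∑ x ∈ Finset.Icc (0:ℤ) M, ph C (2/3) x := by
      rw [← Finset.mul_sum]
    simp only [hr, hr2]
    push_cast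
    ring
  have h5 := sum_ph_le (s := 2/3) hC (by norm_num) (by norm_num) M
  have hM1' : (1 : ℝ) ≤ M := by exact_mod_cast hM1
  have hM0 : (0 : ℝ) < M := by linarith
  refine h0.trans ?_
  have e1 : (M : ℝ) ^ (4/3 : ℝ) = (M : ℝ) ^ 2 * (M : ℝ) ^ (-(2/3) : ℝ) := by
    rw [← Real.rpow_natCast, ← Real.rpow_add hM0]
    norm_num
  have e2 : (M : ℝ) ^ (4/3 : ℝ) = M * (M : ℝ) ^ (1 - 2/3 : ℝ) := by
    rw [show (4/3 : ℝ) = 1 + (1 - 2/3) by norm_num, Real.rpow_add hM0, Real.rpow_one]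
  have h1 : ph C (2/3) ⌊d * M⌋ ≤ (C + 1) * ((2 / d) ^ (2/3 : ℝ) * (M : ℝ) ^ (-(2/3) : ℝ)) := by
    have e3 : (2 / d) ^ (2/3 : ℝ) * (M : ℝ) ^ (-(2/3) : ℝ) = (d * M / 2) ^ (-(2/3) : ℝ) := by
      rw [show (d * M / 2 : ℝ) = (2 / d)⁻¹ * M by field_simp, Real.mul_rpow (by positivity) hM0.le,
        Real.inv_rpow (by positivity), Real.rpow_neg (by positivity : (0:ℝ) ≤ 2 / d), inv_inv]
    rw [e3]
    unfold ph
    split_ifs with h
    · have h2 : d * M < 1 := by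
        by_contra hcon
        push Not at hcon
        have : (1 : ℤ) ≤ ⌊d * M⌋ := Int.le_floor.2 (by exact_mod_cast hcon)
        omega
      have h3 : (1 : ℝ) ≤ (d * M / 2) ^ (-(2/3) : ℝ) := by
        apply Real.one_le_rpow_of_pos_of_le_one_of_nonpos (by positivity) (by linarith)
          (by norm_num)
      nlinarith
    · push Not at h
      have h2 : (1 : ℝ) ≤ (⌊d * M⌋ : ℝ) := by exact_mod_cast h
      have h3 := Int.lt_floor_add_one (d * M : ℝ)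
      have h4 : d * M / 2 ≤ (⌊d * M⌋ : ℝ) := by linarith
      have h6 : (⌊d * M⌋ : ℝ) ^ (-(2/3) : ℝ) ≤ (d * M / 2) ^ (-(2/3) : ℝ) :=
        Real.rpow_le_rpow_of_nonpos (by positivity) h4 (by norm_num)
      have h7 : 0 ≤ (d * M / 2) ^ (-(2/3) : ℝ) := by positivity
      nlinarith
  have h2 : ((M : ℝ) + 1) ^ 2 * ph C (2/3) ⌊d * M⌋ ≤
      4 * (C + 1) * (2 / d) ^ (2/3 : ℝ) * (M : ℝ) ^ (4/3 : ℝ) := by
    rw [e1]
    have h3 : ((M : ℝ) + 1) ^ 2 ≤ 4 * (M : ℝ) ^ 2 := by nlinarith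
    calc ((M : ℝ) + 1) ^ 2 * ph C (2/3) ⌊d * M⌋ ≤
          (4 * (M : ℝ) ^ 2) * ((C + 1) * ((2 / d) ^ (2/3 : ℝ) * (M : ℝ) ^ (-(2/3) : ℝ))) :=
          mul_le_mul h3 h1 (ph_nonneg hC _) (by positivity)
      _ = _ := by ring
  have h3 : 4 * ((M : ℝ) + 1) * ∑ x ∈ Finset.Icc (0:ℤ) M, ph C (2/3) x ≤
      8 * (1 + C * 3) * (M : ℝ) ^ (4/3 : ℝ) := by
    have h11 : (1:ℝ) ≤ (M:ℝ) ^ (1 - 2/3 : ℝ) := Real.one_le_rpow hM1' (by norm_num)
    have h12 : ∑ x ∈ Finset.Icc (0:ℤ) M, ph C (2/3) x ≤ (1 + C * 3) * (M:ℝ) ^ (1 - 2/3 : ℝ) := by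
      refine h5.trans ?_
      have : C * ((M:ℝ) ^ (1 - 2/3 : ℝ) / (1 - 2/3)) = C * 3 * (M:ℝ) ^ (1 - 2/3 : ℝ) := by
        ring
      rw [this]
      nlinarith
    rw [e2]
    calc 4 * ((M : ℝ) + 1) * ∑ x ∈ Finset.Icc (0:ℤ) M, ph C (2/3) x ≤
          (8 * (M : ℝ)) * ((1 + C * 3) * (M:ℝ) ^ (1 - 2/3 : ℝ)) :=
          mul_le_mul (by linarith) h12 (Finset.sum_nonneg fun x _ => ph_nonneg hC x) (by positivity)
      _ = _ := by ring
  linarith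

/-! ### The events -/

/-- the centre of a square -/
noncomputable def cen (M : ℕ) (q : ℤ × ℤ) : ℂ :=
  ⟨((q.1 : ℝ) + 1 / 2) / ((M : ℝ) + 1), ((q.2 : ℝ) + 1 / 2) / ((M : ℝ) + 1)⟩

/-- the event of a square -/
noncomputable def Uq (d : ℝ) (M : ℕ) (q : ℤ × ℤ) : Set Curve :=
  if 1 ≤ min ⌊d * M⌋ (bdist M q) then
    EvU (cen M q) (1 / ((M : ℝ) + 1)) (((min ⌊d * M⌋ (bdist M q) : ℤ) : ℝ) / ((M : ℝ) + 1) / 2)
  else Set.univ

theorem Uq_meas (d : ℝ) (M : ℕ) (q : ℤ × ℤ) : MeasurableSet (Uq d M q) := by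
  unfold Uq
  split_ifs
  · exact (EvU_open _ _ _).measurableSet
  · exact MeasurableSet.univ

theorem dist_cen {M : ℕ} {q : ℤ × ℤ} {z : ℂ} (hz : z ∈ cell (1 / ((M : ℝ) + 1)) q) :
    dist z (cen M q) < 1 / ((M : ℝ) + 1) := by
  obtain ⟨⟨h1, h2⟩, h3, h4⟩ := hz
  have hr : (0 : ℝ) < 1 / ((M : ℝ) + 1) := by positivity
  set r : ℝ := 1 / ((M : ℝ) + 1) with hr'
  have c1 : (cen M q).re = q.1 * r + r / 2 := by
    unfold cen
    rw [hr']
    ring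
  have c2 : (cen M q).im = q.2 * r + r / 2 := by
    unfold cen
    rw [hr']
    ring
  rw [dist_eq_norm]
  apply lt_of_pow_lt_pow_left₀ 2 hr.le
  rw [Complex.sq_norm, Complex.normSq_apply, Complex.sub_re, Complex.sub_im, c1, c2]
  have g1 : |z.re - (q.1 * r + r / 2)| ≤ r / 2 := by rw [abs_le]; constructor <;> linarith
  have g2 : |z.im - (q.2 * r + r / 2)| ≤ r / 2 := by rw [abs_le]; constructor <;> linarith
  have g3 := sq_le_sq' (abs_le.1 g1).1 (abs_le.1 g1).2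
  have g4 := sq_le_sq' (abs_le.1 g2).1 (abs_le.1 g2).2
  nlinarith

theorem U_of {d : ℝ} {M : ℕ} {q : ℤ × ℤ} {c : Curve}
    (hd : d < Metric.diam (Set.range c.path)) (hd0 : 0 < d)
    (hq : q ∈ grid (1 / ((M : ℝ) + 1)) (oB (Set.range c.path))) : c ∈ Uq d M q := by
  unfold Uq
  split_ifs with h
  · obtain ⟨z, hz, hzq⟩ := hq
    have hM : (0 : ℝ) < (M : ℝ) + 1 := by positivity
    have hκ0 : (0 : ℝ) ≤ ((min ⌊d * M⌋ (bdist M q) : ℤ) : ℝ) := by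
      have : (0 : ℤ) ≤ min ⌊d * M⌋ (bdist M q) := by omega
      exact_mod_cast this
    have hκ1 : ((min ⌊d * M⌋ (bdist M q) : ℤ) : ℝ) ≤ d * M := by
      have h1 : min ⌊d * M⌋ (bdist M q) ≤ ⌊d * M⌋ := min_le_left _ _
      exact Int.le_floor.1 h1
    refine EvU_of hz (dist_cen hzq) ?_ (by positivity)
    refine lt_of_le_of_lt ?_ hd
    have h2 : ((min ⌊d * M⌋ (bdist M q) : ℤ) : ℝ) / ((M : ℝ) + 1) ≤ d := by
      rw [div_le_iff₀ hM]
      nlinarith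
    linarith
  · exact Set.mem_univ _

theorem ball_cen {M : ℕ} {q : ℤ × ℤ} {κ : ℤ} (hκ : κ ≤ bdist M q) :
    Metric.ball (cen M q) ((κ : ℝ) / ((M : ℝ) + 1)) ⊆ Sq := by
  intro z hz
  rw [Metric.mem_ball, dist_eq_norm] at hz
  have hM : (0 : ℝ) < (M : ℝ) + 1 := by positivity
  have h1 := (Complex.abs_re_le_norm (z - cen M q)).trans_lt hz
  have h2 := (Complex.abs_im_le_norm (z - cen M q)).trans_lt hz
  rw [Complex.sub_re] at h1
  rw [Complex.sub_im] at h2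
  have c1 : (cen M q).re = ((q.1 : ℝ) + 1 / 2) / ((M : ℝ) + 1) := rfl
  have c2 : (cen M q).im = ((q.2 : ℝ) + 1 / 2) / ((M : ℝ) + 1) := rfl
  rw [c1] at h1
  rw [c2] at h2
  unfold bdist at hκ
  have g1 : κ ≤ q.1 := by omega
  have g2 : κ ≤ (M : ℤ) - q.1 := by omega
  have g3 : κ ≤ q.2 := by omega
  have g4 : κ ≤ (M : ℤ) - q.2 := by omega
  have g1' : (κ : ℝ) ≤ q.1 := by exact_mod_cast g1
  have g2' : (κ : ℝ) ≤ (M : ℝ) - q.1 := by exact_mod_cast g2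
  have g3' : (κ : ℝ) ≤ q.2 := by exact_mod_cast g3
  have g4' : (κ : ℝ) ≤ (M : ℝ) - q.2 := by exact_mod_cast g4
  have key : ∀ (x a : ℝ), |x - (a + 1 / 2) / ((M : ℝ) + 1)| < κ / ((M : ℝ) + 1) → (κ : ℝ) ≤ a →
      (κ : ℝ) ≤ M - a → 0 < x ∧ x < 1 := by
    intro x a k1 k2 k3
    rw [abs_lt] at k1
    obtain ⟨k4, k5⟩ := k1
    constructor
    · have : 0 < (a + 1 / 2) / ((M : ℝ) + 1) - κ / ((M : ℝ) + 1) := by
        rw [← sub_div]
        apply div_pos _ hM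
        linarith
      linarith
    · have : (a + 1 / 2) / ((M : ℝ) + 1) + κ / ((M : ℝ) + 1) < 1 := by
        rw [← add_div, div_lt_one hM]
        linarith
      linarith
  obtain ⟨r1, r2⟩ := key z.re q.1 h1 g1' g2'
  obtain ⟨r3, r4⟩ := key z.im q.2 h2 g3' g4'
  exact ⟨r1, r2, r3, r4⟩

theorem mu_U {C d : ℝ} {μ : ProbabilityMeasure Curve}
    (hp : ∀ (z : ℂ) (r d' : ℝ), 0 < r → r ≤ d' → Metric.ball z d' ⊆ Sq →
      (μ : Measure Curve) (EvU z r (d' / 2)) ≤ ENNReal.ofReal (C * (r / d') ^ (2 / 3 : ℝ)))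
    (M : ℕ) (q : ℤ × ℤ) : (μ : Measure Curve) (Uq d M q) ≤
      ENNReal.ofReal (ph C (2/3) (min ⌊d * M⌋ (bdist M q))) := by
  unfold Uq ph
  split_ifs with h h' h'
  · omega
  · obtain ⟨κ, hκ⟩ : ∃ κ : ℤ, κ = min ⌊d * M⌋ (bdist M q) := ⟨_, rfl⟩
    rw [← hκ] at h h' ⊢
    have hM : (0 : ℝ) < (M : ℝ) + 1 := by positivity
    have hκ1 : (1 : ℝ) ≤ κ := by exact_mod_cast h
    have h1 := hp (cen M q) (1 / ((M : ℝ) + 1)) ((κ : ℝ) / ((M : ℝ) + 1)) (by positivity)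
      (by gcongr) (ball_cen (by rw [hκ]; exact min_le_right _ _))
    refine h1.trans (le_of_eq ?_)
    congr 2
    have e1 : 1 / ((M : ℝ) + 1) / ((κ : ℝ) / ((M : ℝ) + 1)) = (κ : ℝ)⁻¹ := by
      have : (κ : ℝ) ≠ 0 := by linarith
      field_simp
    rw [e1, Real.inv_rpow (by linarith), Real.rpow_neg (by linarith)]
  · rw [ENNReal.ofReal_one]
    exact prob_le_one
  · omega

/-- the number of the events -/
noncomputable def XU (d : ℝ) (M : ℕ) (c : Curve) : ℝ≥0∞ :=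
  ∑ q ∈ Finset.Icc (0:ℤ) M ×ˢ Finset.Icc (0:ℤ) M, (Uq d M q).indicator (fun _ => 1) c

theorem XU_meas (d : ℝ) (M : ℕ) : Measurable (XU d M) := by
  unfold XU
  exact Finset.measurable_sum _ fun q _ => measurable_const.indicator (Uq_meas d M q)

theorem lint_XU {C d : ℝ} (hC : 0 ≤ C) {μ : ProbabilityMeasure Curve}
    (hp : ∀ (z : ℂ) (r d' : ℝ), 0 < r → r ≤ d' → Metric.ball z d' ⊆ Sq →
      (μ : Measure Curve) (EvU z r (d' / 2)) ≤ ENNReal.ofReal (C * (r / d') ^ (2 / 3 : ℝ)))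
    (M : ℕ) : ∫⁻ c, XU d M c ∂(μ : Measure Curve) ≤
      ENNReal.ofReal (∑ w ∈ Finset.Icc (0:ℤ) M ×ˢ Finset.Icc (0:ℤ) M,
        ph C (2/3) (min ⌊d * M⌋ (bdist M w))) := by
  unfold XU
  rw [lintegral_finset_sum _ fun q _ => measurable_const.indicator (Uq_meas d M q),
    ENNReal.ofReal_sum_of_nonneg fun q _ => ph_nonneg hC _]
  refine Finset.sum_le_sum fun q _ => ?_
  rw [lintegral_indicator (Uq_meas d M q), setLIntegral_const, one_mul]
  exact mu_U hp M q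

theorem cnt_le_XU {d : ℝ} {M : ℕ} {c : Curve} (hd : d < Metric.diam (Set.range c.path))
    (hd0 : 0 < d) (hs : Set.range c.path ⊆ Sqc) :
    (cnt (1 / ((M : ℝ) + 1)) (oB (Set.range c.path)) : ℝ≥0∞) ≤ XU d M c + (4 * M + 8 : ℕ) := by
  classical
  have hK : InSq (oB (Set.range c.path)) := by
    intro z hz
    obtain ⟨h1, h2, h3, h4⟩ := hs (oB_sub (range_closed _) hz)
    exact ⟨⟨h1, h2⟩, h3, h4⟩
  have hr : (0 : ℝ) < 1 / ((M : ℝ) + 1) := by positivity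
  have hfl : ⌊1 / (1 / ((M : ℝ) + 1))⌋ = (M : ℤ) + 1 := by
    rw [one_div_one_div]
    exact_mod_cast Int.floor_intCast ((M : ℤ) + 1)
  have hsub := grid_sub hr hK
  rw [hfl] at hsub
  set Q : Finset (ℤ × ℤ) := Finset.Icc (0:ℤ) M ×ˢ Finset.Icc (0:ℤ) M with hQ
  set Q' : Finset (ℤ × ℤ) := Finset.Icc (-1:ℤ) (M + 1) ×ˢ Finset.Icc (-1:ℤ) (M + 1) with hQ'
  have hQQ : Q ⊆ Q' := by
    rintro ⟨a, b⟩ h
    rw [hQ, Finset.mem_product, Finset.mem_Icc, Finset.mem_Icc] at h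
    rw [hQ', Finset.mem_product, Finset.mem_Icc, Finset.mem_Icc]
    simp only at h ⊢
    omega
  have h1 : grid (1 / ((M : ℝ) + 1)) (oB (Set.range c.path)) ⊆
      ↑(Q.filter (fun q => c ∈ Uq d M q) ∪ (Q' \ Q)) := by
    intro q hq
    rw [Finset.mem_coe, Finset.mem_union, Finset.mem_filter, Finset.mem_sdiff]
    by_cases h : q ∈ Q
    · exact Or.inl ⟨h, U_of hd hd0 hq⟩
    · exact Or.inr ⟨Finset.mem_coe.1 (hsub hq), h⟩
  have h2 : cnt (1 / ((M : ℝ) + 1)) (oB (Set.range c.path)) ≤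
      (Q.filter (fun q => c ∈ Uq d M q)).card + (Q' \ Q).card := by
    unfold cnt
    refine (Set.ncard_le_ncard h1 (Finset.finite_toSet _)).trans ?_
    rw [Set.ncard_coe_finset]
    exact Finset.card_union_le _ _
  have h3 : (Q' \ Q).card = 4 * M + 8 := by
    rw [Finset.card_sdiff_of_subset hQQ, hQ, hQ', Finset.card_product, Finset.card_product,
      Int.card_Icc, Int.card_Icc]
    have e1 : ((M : ℤ) + 1 + 1 - -1).toNat = M + 3 := by omega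
    have e2 : ((M : ℤ) + 1 - 0).toNat = M + 1 := by omega
    rw [e1, e2]
    have : (M + 3) * (M + 3) = (M + 1) * (M + 1) + (4 * M + 8) := by ring
    omega
  have h4 : XU d M c = ((Q.filter (fun q => c ∈ Uq d M q)).card : ℝ≥0∞) := by
    unfold XU
    rw [Finset.card_filter, Nat.cast_sum]
    refine Finset.sum_congr rfl fun q _ => ?_
    by_cases h : c ∈ Uq d M q
    · rw [Set.indicator_of_mem h, if_pos h, Nat.cast_one]
    · rw [Set.indicator_of_notMem h, if_neg h, Nat.cast_zero]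
  rw [h4]
  rw [h3] at h2
  exact_mod_cast h2

/-! ### Borel-Cantelli -/

theorem ev_XU {C : ℝ} (hC : 0 ≤ C) {μ : ProbabilityMeasure Curve}
    (hp : ∀ (z : ℂ) (r d' : ℝ), 0 < r → r ≤ d' → Metric.ball z d' ⊆ Sq →
      (μ : Measure Curve) (EvU z r (d' / 2)) ≤ ENNReal.ofReal (C * (r / d') ^ (2 / 3 : ℝ)))
    {d e : ℝ} (hd : 0 < d) (he : 0 < e) : ∀ᵐ c ∂(μ : Measure Curve), ∀ᶠ j : ℕ in atTop,
      XU d (2 ^ j - 1) c < ENNReal.ofReal (((2 : ℝ) ^ j) ^ (4 / 3 + e)) := by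
  obtain ⟨A, hA, hsum⟩ := ph_sum_le hC hd
  have h2e : (2 : ℝ) ^ (-e) < 1 := Real.rpow_lt_one_of_one_lt_of_neg (by norm_num) (by linarith)
  have h2e0 : (0 : ℝ) < (2 : ℝ) ^ (-e) := by positivity
  -- Markov
  have hmk : ∀ j : ℕ, 1 ≤ j → (μ : Measure Curve)
      {c | ENNReal.ofReal (((2 : ℝ) ^ j) ^ (4 / 3 + e)) ≤ XU d (2 ^ j - 1) c} ≤
      ENNReal.ofReal (A * ((2 : ℝ) ^ (-e)) ^ j) := by
    intro j hj
    have hM : 1 ≤ 2 ^ j - 1 := by
      have : 2 ^ 1 ≤ 2 ^ j := Nat.pow_le_pow_right (by norm_num) hj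
      omega
    have hpos : (0 : ℝ) < ((2 : ℝ) ^ j) ^ (4 / 3 + e) := by positivity
    have h1 := meas_ge_le_lintegral_div (μ := (μ : Measure Curve))
      (XU_meas d (2 ^ j - 1)).aemeasurable (ε := ENNReal.ofReal (((2 : ℝ) ^ j) ^ (4 / 3 + e)))
      (by rw [ne_eq, ENNReal.ofReal_eq_zero]; exact not_le.2 hpos) ENNReal.ofReal_ne_top
    refine h1.trans ?_
    have h3 : ∫⁻ c, XU d (2 ^ j - 1) c ∂(μ : Measure Curve) ≤
        ENNReal.ofReal (A * ((2 : ℝ) ^ j) ^ (4/3 : ℝ)) := by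
      refine (lint_XU hC hp (2 ^ j - 1)).trans (ENNReal.ofReal_le_ofReal ?_)
      refine (hsum _ hM).trans ?_
      refine mul_le_mul_of_nonneg_left ?_ hA.le
      apply Real.rpow_le_rpow (Nat.cast_nonneg _) _ (by norm_num)
      have : ((2 ^ j - 1 : ℕ) : ℝ) ≤ ((2 ^ j : ℕ) : ℝ) := by exact_mod_cast Nat.sub_le _ _
      refine this.trans ?_
      push_cast
      exact le_rfl
    refine (ENNReal.div_le_div_right h3 _).trans ?_
    rw [← ENNReal.ofReal_div_of_pos hpos]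
    apply ENNReal.ofReal_le_ofReal
    rw [div_le_iff₀ hpos]
    have e1 : ((2 : ℝ) ^ (-e)) ^ j = ((2 : ℝ) ^ j) ^ (-e) := by
      rw [← Real.rpow_natCast, ← Real.rpow_mul (by norm_num), ← Real.rpow_natCast (2 : ℝ) j,
        ← Real.rpow_mul (by norm_num)]
      ring_nf
    rw [e1, mul_assoc, ← Real.rpow_add (by positivity)]
    apply le_of_eq
    congr 2
    ring
  have hfin : ∑' j : ℕ, (μ : Measure Curve)
      {c | ENNReal.ofReal (((2 : ℝ) ^ (j + 1)) ^ (4 / 3 + e)) ≤ XU d (2 ^ (j + 1) - 1) c} ≠ ⊤ := by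
    have hs : Summable (fun j : ℕ => A * ((2 : ℝ) ^ (-e)) ^ (j + 1)) := by
      have h5 := (summable_geometric_of_lt_one h2e0.le h2e).mul_left (A * (2 : ℝ) ^ (-e))
      refine h5.congr fun j => ?_
      rw [pow_succ]
      ring
    refine ne_top_of_le_ne_top hs.tsum_ofReal_ne_top (ENNReal.tsum_le_tsum fun j => ?_)
    exact hmk (j + 1) (by omega)
  filter_upwards [ae_eventually_notMem hfin] with c hc
  obtain ⟨j0, hj0⟩ := eventually_atTop.1 hc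
  refine eventually_atTop.2 ⟨j0 + 1, fun j hj => ?_⟩
  obtain ⟨i, rfl⟩ : ∃ i, j = i + 1 := ⟨j - 1, by omega⟩
  have h6 := hj0 i (by omega)
  exact not_le.1 h6

/-! ### The dimension -/

/-- **The Minkowski dimension of the outer boundary of the limits is `4/3`.** -/
theorem lim_mink (hG : S_FINL) {sel : (n : ℕ) → Finset Plain.Edge → ℤ × ℤ}
    {γ : (n : ℕ) → Finset Plain.Edge → Curve} (hT : Tr sel γ) {k : ℕ → ℕ}
    (hk : Tendsto k atTop atTop) {μ : ProbabilityMeasure Curve}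
    (hμ : Tendsto (fun i => lawOf (k i) (γ (k i))) atTop (𝓝 μ)) :
    ∀ᵐ c : Curve ∂(μ : Measure Curve), dimH (oB (Set.range c.path)) = 4 / 3 ∧
      Tendsto (fun r : ℝ => Real.log (cnt r (oB (Set.range c.path))) / Real.log (1 / r))
        (𝓝[>] 0) (𝓝 (4 / 3)) := by
  obtain ⟨C, hC, hP⟩ := lim_leO Pool.Agent.W424.KI.u3 hT
  have hp := hP k hk μ hμ
  have h1 : ∀ᵐ c ∂(μ : Measure Curve), ∀ l i : ℕ, ∀ᶠ j : ℕ in atTop,
      XU (1 / ((l : ℝ) + 1)) (2 ^ j - 1) c <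
        ENNReal.ofReal (((2 : ℝ) ^ j) ^ (4 / 3 + 1 / (2 * ((i : ℝ) + 1)))) := by
    rw [ae_all_iff]
    intro l
    rw [ae_all_iff]
    intro i
    exact ev_XU hC.le hp (by positivity) (by positivity)
  have h2 := Pool.Agent.W2helper82.OA.P20.fin_as hG sel γ hT k hk μ hμ
  have h3 : ∀ᵐ c : Curve ∂(μ : Measure Curve), Set.range c.path ⊆ Sqc := by
    have := Pool.Agent.W597.PDBL.bl Pool.Agent.W320.PD.HB.hb sel γ hT k hk μ hμ 1 one_pos
    filter_upwards [this] with c hc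
    exact hc.1
  filter_upwards [h1, h2, h3] with c hc1 hc2 hc3
  refine ⟨hc2, ?_⟩
  have hcl := range_closed c.path
  have hK : InSq (oB (Set.range c.path)) := by
    intro z hz
    obtain ⟨h1, h2, h3, h4⟩ := hc3 (oB_sub hcl hz)
    exact ⟨⟨h1, h2⟩, h3, h4⟩
  -- the diameter is positive
  have hdiam : 0 < Metric.diam (Set.range c.path) := by
    by_contra hcon
    have hsub : (oB (Set.range c.path)).Subsingleton := by
      intro x hx y hy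
      have h4 := Metric.dist_le_diam_of_mem (isCompact_range c.path.continuous).isBounded
        (oB_sub hcl hx) (oB_sub hcl hy)
      exact dist_le_zero.1 (h4.trans (not_lt.1 hcon))
    rw [hsub.dimH_zero] at hc2
    have : (4 / 3 : ℝ≥0∞) ≠ 0 := by
      rw [Pool.Agent.W2helper75.OB.e43, ne_eq, ENNReal.ofReal_eq_zero]
      norm_num
    exact this hc2.symm
  obtain ⟨l, hl⟩ := exists_nat_one_div_lt hdiam
  refine tendsto_of hK (by norm_num) (by rw [hc2, Pool.Agent.W2helper75.OB.e43]) fun i => ?_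
  -- absorb the constants
  have hbig : ∀ᶠ j : ℕ in atTop,
      ((2 : ℝ) ^ j) ^ (4 / 3 + 1 / (2 * ((i : ℝ) + 1))) + (4 * (2 : ℝ) ^ j + 8) ≤
        ((2 : ℝ) ^ j) ^ (4 / 3 + 1 / ((i : ℝ) + 1)) := by
    have hi : (0 : ℝ) < 1 / (2 * ((i : ℝ) + 1)) := by positivity
    have hlim : Tendsto (fun j : ℕ => ((2 : ℝ) ^ j) ^ (1 / (2 * ((i : ℝ) + 1)))) atTop atTop :=
      (tendsto_rpow_atTop hi).comp (tendsto_pow_atTop_atTop_of_one_lt (by norm_num))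
    filter_upwards [hlim.eventually_ge_atTop 13] with j hj
    have hx : (1 : ℝ) ≤ (2 : ℝ) ^ j := one_le_pow₀ (by norm_num)
    have hx0 : (0 : ℝ) < (2 : ℝ) ^ j := by positivity
    set x : ℝ := (2 : ℝ) ^ j with hxd
    have e1 : x ^ (4 / 3 + 1 / ((i : ℝ) + 1)) =
        x ^ (4 / 3 + 1 / (2 * ((i : ℝ) + 1))) * x ^ (1 / (2 * ((i : ℝ) + 1))) := by
      rw [← Real.rpow_add hx0]
      congr 1
      field_simp
      ring
    rw [e1]
    have h5 : x ≤ x ^ (4 / 3 + 1 / (2 * ((i : ℝ) + 1))) := by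
      conv_lhs => rw [← Real.rpow_one x]
      apply Real.rpow_le_rpow_of_exponent_le hx
      linarith
    nlinarith
  filter_upwards [hc1 l i, hbig] with j h4 h5
  have h6 := cnt_le_XU (M := 2 ^ j - 1) hl (by positivity) hc3
  have h2j : 1 ≤ 2 ^ j := Nat.one_le_two_pow
  have e2 : (((2 ^ j - 1 : ℕ) : ℝ) + 1) = 2 ^ j := by
    rw [Nat.cast_sub h2j]
    push_cast
    ring
  rw [e2] at h6
  have h7 : (cnt (1 / 2 ^ j) (oB (Set.range c.path)) : ℝ≥0∞) ≤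
      ENNReal.ofReal (((2 : ℝ) ^ j) ^ (4 / 3 + 1 / (2 * ((i : ℝ) + 1))) + (4 * (2 : ℝ) ^ j + 8)) := by
    refine h6.trans ?_
    rw [ENNReal.ofReal_add (by positivity) (by positivity)]
    refine add_le_add h4.le ?_
    rw [← ENNReal.ofReal_natCast]
    apply ENNReal.ofReal_le_ofReal
    push_cast
    rw [Nat.cast_sub h2j]
    push_cast
    linarith
  have h8 : (cnt (1 / 2 ^ j) (oB (Set.range c.path)) : ℝ) ≤
      ((2 : ℝ) ^ j) ^ (4 / 3 + 1 / (2 * ((i : ℝ) + 1))) + (4 * (2 : ℝ) ^ j + 8) := by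
    rw [← ENNReal.ofReal_natCast] at h7
    exact (ENNReal.ofReal_le_ofReal_iff (by positivity)).1 h7
  exact h8.trans h5

end Pool.Agent.W2helper77.OM
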