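import Pool.Agent.H342R2.Per.Sum
import Mathlib.Topology.MetricSpace.HausdorffDimension

/-!
# Grid counts and dimension
-/

set_option autoImplicit false

namespace Pool.Agent.W2helper77.OM

open H974 Finset H342P Filter Topology MeasureTheory
open scoped ENNReal NNReal

/-- the closed square of side `r` with the lower left corner `(q.1 r, q.2 r)` -/
def cell (r : ℝ) (q : ℤ × ℤ) : Set ℂ :=
  {z | (q.1 * r ≤ z.re ∧ z.re ≤ (q.1 + 1) * r) ∧ q.2 * r ≤ z.im ∧ z.im ≤ (q.2 + 1) * r}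

/-- the squares of side `r` of the grid which meet `K` -/
def grid (r : ℝ) (K : Set ℂ) : Set (ℤ × ℤ) := {q | (K ∩ cell r q).Nonempty}

/-- the number of the squares of side `r` of the grid which meet `K` -/
noncomputable def cnt (r : ℝ) (K : Set ℂ) : ℕ := (grid r K).ncard

/-- `K` lies in the closed unit square -/
def InSq (K : Set ℂ) : Prop := ∀ z ∈ K, (0 ≤ z.re ∧ z.re ≤ 1) ∧ 0 ≤ z.im ∧ z.im ≤ 1

theorem grid_sub {r : ℝ} (hr : 0 < r) {K : Set ℂ} (hK : InSq K) :
    grid r K ⊆ ↑(Finset.Icc (-1 : ℤ) ⌊1 / r⌋ ×ˢ Finset.Icc (-1 : ℤ) ⌊1 / r⌋) := by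
  rintro q ⟨z, hz, ⟨h1, h2⟩, h3, h4⟩
  obtain ⟨⟨k1, k2⟩, k3, k4⟩ := hK z hz
  have key : ∀ (a : ℤ) (x : ℝ), a * r ≤ x → x ≤ (a + 1) * r → 0 ≤ x → x ≤ 1 →
      -1 ≤ a ∧ a ≤ ⌊1 / r⌋ := by
    intro a x g1 g2 g3 g4
    constructor
    · have h5 : 0 ≤ ((a : ℝ) + 1) * r := by linarith
      have h6 : 0 ≤ (a : ℝ) + 1 := by
        by_contra hcon
        push Not at hcon
        nlinarith
      have h7 : (-1 : ℝ) ≤ a := by linarith
      exact_mod_cast h7
    · rw [Int.le_floor, le_div_iff₀ hr]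
      linarith
  rw [Finset.mem_coe, Finset.mem_product, Finset.mem_Icc, Finset.mem_Icc]
  exact ⟨key _ _ h1 h2 k1 k2, key _ _ h3 h4 k3 k4⟩

theorem grid_fin {r : ℝ} (hr : 0 < r) {K : Set ℂ} (hK : InSq K) : (grid r K).Finite :=
  (Finset.finite_toSet _).subset (grid_sub hr hK)

/-- the square which contains a given point -/
theorem mem_grid {r : ℝ} (hr : 0 < r) {K : Set ℂ} {z : ℂ} (hz : z ∈ K) :
    ((⌊z.re / r⌋, ⌊z.im / r⌋) : ℤ × ℤ) ∈ grid r K ∧ z ∈ cell r (⌊z.re / r⌋, ⌊z.im / r⌋) := by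
  have key : ∀ x : ℝ, (⌊x / r⌋ : ℝ) * r ≤ x ∧ x ≤ ((⌊x / r⌋ : ℝ) + 1) * r := by
    intro x
    constructor
    · rw [← le_div_iff₀ hr]; exact Int.floor_le _
    · rw [← div_le_iff₀ hr]; exact (Int.lt_floor_add_one _).le
  have h : z ∈ cell r (⌊z.re / r⌋, ⌊z.im / r⌋) := ⟨key z.re, key z.im⟩
  exact ⟨⟨z, hz, h⟩, h⟩

/-- comparison of two mesh sizes -/
theorem cnt_le {r s : ℝ} (hs : 0 < s) (hsr : s ≤ r) {K : Set ℂ} (hK : InSq K) :
    cnt r K ≤ 9 * cnt s K := by
  classical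
  have hr : 0 < r := lt_of_lt_of_le hs hsr
  have hF := grid_fin hr hK
  have hG := grid_fin hs hK
  unfold cnt
  rw [Set.ncard_eq_toFinset_card _ hF, Set.ncard_eq_toFinset_card _ hG]
  have h' : ∀ q ∈ hF.toFinset, ∃ p ∈ hG.toFinset,
      (⌈(p.1 : ℝ) * s / r - 1⌉ ≤ q.1 ∧ q.1 ≤ ⌈(p.1 : ℝ) * s / r - 1⌉ + 2) ∧
      (⌈(p.2 : ℝ) * s / r - 1⌉ ≤ q.2 ∧ q.2 ≤ ⌈(p.2 : ℝ) * s / r - 1⌉ + 2) := by
    intro q hq
    rw [Set.Finite.mem_toFinset] at hq
    obtain ⟨z, hz, ⟨h1, h2⟩, h3, h4⟩ := hq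
    obtain ⟨g1, g2, g3⟩ := mem_grid hs hz
    refine ⟨_, (Set.Finite.mem_toFinset _).2 g1, ?_⟩
    have key : ∀ (a b : ℤ) (x : ℝ), a * r ≤ x → x ≤ (a + 1) * r → b * s ≤ x → x ≤ (b + 1) * s →
        ⌈(b : ℝ) * s / r - 1⌉ ≤ a ∧ a ≤ ⌈(b : ℝ) * s / r - 1⌉ + 2 := by
      intro a b x k1 k2 k3 k4
      constructor
      · rw [Int.ceil_le, sub_le_iff_le_add, div_le_iff₀ hr]
        linarith
      · have h5 := Int.le_ceil ((b : ℝ) * s / r - 1)
        have h6 : (a : ℝ) ≤ (b : ℝ) * s / r + 1 := by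
          have h7 : (a : ℝ) ≤ ((b : ℝ) + 1) * s / r := by
            rw [le_div_iff₀ hr]; linarith
          have h8 : ((b : ℝ) + 1) * s / r = (b : ℝ) * s / r + s / r := by ring
          have h9 : s / r ≤ 1 := by rw [div_le_one hr]; exact hsr
          linarith
        have h10 : (a : ℝ) ≤ (⌈(b : ℝ) * s / r - 1⌉ : ℝ) + 2 := by linarith
        exact_mod_cast h10
    exact ⟨key _ _ _ h1 h2 g2.1 g2.2, key _ _ _ h3 h4 g3.1 g3.2⟩
  choose! f hf1 hf2 using h'
  have h1 : (hF.toFinset.image f).card ≤ hG.toFinset.card := by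
    apply Finset.card_le_card
    intro p hp
    obtain ⟨q, hq, rfl⟩ := Finset.mem_image.1 hp
    exact hf1 q hq
  have h2 : hF.toFinset.card ≤ 9 * (hF.toFinset.image f).card := by
    apply Finset.card_le_mul_card_image
    intro p _
    have h3 : (hF.toFinset.filter (fun q => f q = p)) ⊆
        Finset.Icc ⌈(p.1 : ℝ) * s / r - 1⌉ (⌈(p.1 : ℝ) * s / r - 1⌉ + 2) ×ˢ
          Finset.Icc ⌈(p.2 : ℝ) * s / r - 1⌉ (⌈(p.2 : ℝ) * s / r - 1⌉ + 2) := by
      intro q hq
      obtain ⟨h4, h5⟩ := Finset.mem_filter.1 hq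
      have h6 := hf2 q h4
      rw [h5] at h6
      rw [Finset.mem_product, Finset.mem_Icc, Finset.mem_Icc]
      exact h6
    refine (Finset.card_le_card h3).trans ?_
    rw [Finset.card_product, Int.card_Icc, Int.card_Icc]
    have e1 : ∀ X : ℤ, (X + 2 + 1 - X).toNat = 3 := by intro X; omega
    rw [e1, e1]
  exact h2.trans (Nat.mul_le_mul_left 9 h1)

theorem cell_ediam {r : ℝ} (hr : 0 < r) (q : ℤ × ℤ) :
    Metric.ediam (cell r q) ≤ ENNReal.ofReal (2 * r) := by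
  apply Metric.ediam_le_of_forall_dist_le
  rintro z ⟨⟨h1, h2⟩, h3, h4⟩ w ⟨⟨k1, k2⟩, k3, k4⟩
  rw [dist_eq_norm]
  refine (Complex.norm_le_abs_re_add_abs_im _).trans ?_
  rw [Complex.sub_re, Complex.sub_im]
  have g1 : |z.re - w.re| ≤ r := by rw [abs_le]; constructor <;> linarith
  have g2 : |z.im - w.im| ≤ r := by rw [abs_le]; constructor <;> linarith
  linarith

/-- Few squares at arbitrarily small scales bound the Hausdorff dimension. -/
theorem dimH_le_of_freq {K : Set ℂ} (hK : InSq K) {s : ℝ} (hs : 0 ≤ s)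
    (h : ∃ᶠ r : ℝ in 𝓝[>] 0, (cnt r K : ℝ) ≤ r ^ (-s)) : dimH K ≤ ENNReal.ofReal s := by
  have key : ∀ t : ℝ, s < t → dimH K ≤ ENNReal.ofReal t := by
    intro t hst
    have ht : 0 < t := lt_of_le_of_lt hs hst
    have hseq : ∃ r : ℕ → ℝ, (∀ n, 0 < r n) ∧ Tendsto r atTop (𝓝 0) ∧
        ∀ n, (cnt (r n) K : ℝ) ≤ r n ^ (-s) := by
      have h1 : ∀ n : ℕ, ∃ r : ℝ, 0 < r ∧ r < 1 / ((n : ℝ) + 1) ∧ (cnt r K : ℝ) ≤ r ^ (-s) := by
        intro n
        have h2 : ∀ᶠ r : ℝ in 𝓝[>] 0, r ∈ Set.Ioo (0 : ℝ) (1 / ((n : ℝ) + 1)) :=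
          Ioo_mem_nhdsGT (by positivity)
        obtain ⟨r, h3, h4⟩ := (h.and_eventually h2).exists
        exact ⟨r, h4.1, h4.2, h3⟩
      choose r h1 h2 h3 using h1
      refine ⟨r, h1, ?_, h3⟩
      exact squeeze_zero (fun n => (h1 n).le) (fun n => (h2 n).le)
        tendsto_one_div_add_atTop_nhds_zero_nat
    obtain ⟨r, hr0, hr, hrc⟩ := hseq
    have hfin : ∀ n, (grid (r n) K).Finite := fun n => grid_fin (hr0 n) hK
    have hH : μH[t] K ≤ liminf (fun n : ℕ => ∑ i : (hfin n).toFinset,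
        Metric.ediam (cell (r n) i) ^ t) atTop := by
      refine Measure.hausdorffMeasure_le_liminf_sum t K (fun n => ENNReal.ofReal (2 * r n)) ?_
        (fun n (i : (hfin n).toFinset) => cell (r n) i) ?_ ?_
      · have h1 : Tendsto (fun n => 2 * r n) atTop (𝓝 (2 * 0)) := hr.const_mul 2
        rw [mul_zero] at h1
        have h2 := ENNReal.tendsto_ofReal h1
        rwa [ENNReal.ofReal_zero] at h2
      · exact Eventually.of_forall fun n i => cell_ediam (hr0 n) _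
      · refine Eventually.of_forall fun n z hz => ?_
        obtain ⟨g1, g2⟩ := mem_grid (hr0 n) hz
        exact Set.mem_iUnion.2 ⟨⟨_, (Set.Finite.mem_toFinset _).2 g1⟩, g2⟩
    have hle : ∀ n, ∑ i : (hfin n).toFinset, Metric.ediam (cell (r n) i) ^ t ≤
        ENNReal.ofReal (2 ^ t * r n ^ (t - s)) := by
      intro n
      have h1 : ∀ i : (hfin n).toFinset, Metric.ediam (cell (r n) i) ^ t ≤
          ENNReal.ofReal ((2 * r n) ^ t) := by
        intro i
        have := hr0 n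
        rw [← ENNReal.ofReal_rpow_of_nonneg (by positivity) ht.le]
        exact ENNReal.rpow_le_rpow (cell_ediam (hr0 n) _) ht.le
      refine (Finset.sum_le_sum fun i _ => h1 i).trans ?_
      rw [Finset.sum_const, Finset.card_univ, Fintype.card_coe, nsmul_eq_mul,
        ← Set.ncard_eq_toFinset_card _ (hfin n), ← ENNReal.ofReal_natCast,
        ← ENNReal.ofReal_mul (Nat.cast_nonneg _)]
      apply ENNReal.ofReal_le_ofReal
      have h2 := hrc n
      have h3 := hr0 n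
      unfold cnt at h2
      rw [Real.mul_rpow (by norm_num) h3.le]
      calc ((grid (r n) K).ncard : ℝ) * (2 ^ t * r n ^ t) ≤ r n ^ (-s) * (2 ^ t * r n ^ t) := by
            gcongr
        _ = 2 ^ t * (r n ^ t * r n ^ (-s)) := by ring
        _ = 2 ^ t * r n ^ (t - s) := by
            rw [← Real.rpow_add h3, sub_eq_add_neg]
    have hlim : Tendsto (fun n => ENNReal.ofReal (2 ^ t * r n ^ (t - s))) atTop (𝓝 0) := by
      have h1 : Tendsto (fun n => r n ^ (t - s)) atTop (𝓝 0) := by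
        have h2 := hr.rpow_const (p := t - s) (Or.inr (by linarith))
        rwa [Real.zero_rpow (by linarith : t - s ≠ 0)] at h2
      have h3 := ENNReal.tendsto_ofReal (h1.const_mul (2 ^ t))
      rwa [mul_zero, ENNReal.ofReal_zero] at h3
    have h0 : μH[t] K = 0 := by
      refine le_antisymm (hH.trans ?_) zero_le
      refine (liminf_le_liminf (Eventually.of_forall hle)).trans ?_
      rw [hlim.liminf_eq]
    have := dimH_le_of_hausdorffMeasure_ne_top (d := t.toNNReal) (s := K) (by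
      rw [Real.coe_toNNReal t ht.le, h0]; exact ENNReal.zero_ne_top)
    exact this
  have hlim : Tendsto (fun j : ℕ => ENNReal.ofReal (s + 1 / ((j : ℝ) + 1))) atTop
      (𝓝 (ENNReal.ofReal (s + 0))) :=
    ENNReal.tendsto_ofReal (tendsto_const_nhds.add tendsto_one_div_add_atTop_nhds_zero_nat)
  rw [add_zero] at hlim
  refine ge_of_tendsto' hlim fun j => key _ ?_
  have : 0 < 1 / ((j : ℝ) + 1) := by positivity
  linarith

/-- The dimension of the grid counts. -/
theorem tendsto_of {K : Set ℂ} (hK : InSq K) {s : ℝ} (hs : 0 < s) (hd : dimH K = ENNReal.ofReal s)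
    (hup : ∀ i : ℕ, ∀ᶠ j : ℕ in atTop,
      (cnt (1 / 2 ^ j) K : ℝ) ≤ ((2 : ℝ) ^ j) ^ (s + 1 / ((i : ℝ) + 1))) :
    Tendsto (fun r : ℝ => Real.log (cnt r K) / Real.log (1 / r)) (𝓝[>] 0) (𝓝 s) := by
  have hsmall : ∀ x : ℝ, 0 < x → ∀ᶠ r : ℝ in 𝓝[>] 0, 0 < r ∧ r < x := fun x hx => by
    have : Set.Ioo (0 : ℝ) x ∈ 𝓝[>] (0 : ℝ) := Ioo_mem_nhdsGT hx
    exact this
  rw [tendsto_order]
  constructor
  · -- lower bound
    intro a ha
    obtain ⟨b, hb1, hb2⟩ : ∃ b, max a 0 < b ∧ b < s := exists_between (max_lt ha hs)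
    have hb0 : 0 < b := (le_max_right a 0).trans_lt hb1
    have hab : a < b := (le_max_left a 0).trans_lt hb1
    have h1 : ∀ᶠ r : ℝ in 𝓝[>] 0, r ^ (-b) < (cnt r K : ℝ) := by
      by_contra hcon
      have h2 : ∃ᶠ r : ℝ in 𝓝[>] 0, (cnt r K : ℝ) ≤ r ^ (-b) := by
        rw [Filter.not_eventually] at hcon
        exact hcon.mono fun r hr => not_lt.1 hr
      have h3 := dimH_le_of_freq hK hb0.le h2
      rw [hd] at h3
      exact absurd ((ENNReal.ofReal_le_ofReal_iff hb0.le).1 h3) (not_le.2 hb2)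
    filter_upwards [h1, hsmall 1 one_pos] with r h2 ⟨h3, h4⟩
    have h5 : 0 < Real.log (1 / r) := Real.log_pos (by rw [lt_div_iff₀ h3]; linarith)
    rw [lt_div_iff₀ h5]
    have h6 : b * Real.log (1 / r) < Real.log (cnt r K) := by
      have h7 : b * Real.log (1 / r) = Real.log (r ^ (-b)) := by
        rw [Real.log_rpow h3, one_div, Real.log_inv]
        ring
      rw [h7]
      exact Real.log_lt_log (by positivity) h2
    nlinarith
  · -- upper bound
    intro a ha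
    obtain ⟨i, hi⟩ := exists_nat_one_div_lt (show 0 < (a - s) / 2 by linarith)
    obtain ⟨j0, hj0⟩ := eventually_atTop.1 (hup i)
    set e : ℝ := s + 1 / ((i : ℝ) + 1) with he
    have he0 : 0 < e := by positivity
    have hea : e < (a + s) / 2 := by rw [he]; linarith
    -- the constant is absorbed
    have hc : ∀ᶠ r : ℝ in 𝓝[>] 0, Real.log (9 * 2 ^ e) / Real.log (1 / r) < (a - s) / 2 := by
      have h1 : Tendsto (fun r : ℝ => Real.log (1 / r)) (𝓝[>] 0) atTop := by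
        have h2 : Tendsto (fun r : ℝ => r⁻¹) (𝓝[>] 0) atTop := tendsto_inv_nhdsGT_zero
        refine (Real.tendsto_log_atTop.comp h2).congr fun r => ?_
        simp [Function.comp, one_div]
      exact (h1.const_div_atTop _).eventually_lt_const (by linarith)
    filter_upwards [hc, hsmall (1 / 2 ^ (j0 + 1)) (by positivity), hsmall 1 one_pos] with r h1 h23 h44
    obtain ⟨h2, h3⟩ := h23
    obtain ⟨_, h4⟩ := h44
    -- dyadic scale
    have hr1 : 1 < 1 / r := by rw [lt_div_iff₀ h2]; linarith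
    obtain ⟨j, hj1, hj2⟩ : ∃ j : ℕ, (2 : ℝ) ^ j ≤ 1 / r ∧ 1 / r < 2 ^ (j + 1) :=
      exists_nat_pow_near hr1.le (by norm_num)
    have hjj : j0 ≤ j + 1 := by
      by_contra hcon
      push Not at hcon
      have h5 : (2 : ℝ) ^ (j + 1) ≤ 2 ^ (j0 + 1) := pow_le_pow_right₀ (by norm_num) (by omega)
      have h6 : (2 : ℝ) ^ (j0 + 1) < 1 / r := by
        rw [lt_div_iff₀ h2]
        rw [lt_div_iff₀ (by positivity)] at h3
        linarith
      linarith
    have h5 : 1 / (2 : ℝ) ^ (j + 1) ≤ r := by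
      rw [div_le_iff₀ (by positivity)]
      rw [div_lt_iff₀ h2] at hj2
      linarith
    have h6 := cnt_le (by positivity) h5 hK
    have h7 := hj0 (j + 1) hjj
    have h8 : (cnt r K : ℝ) ≤ 9 * ((2 : ℝ) ^ (j + 1)) ^ e := by
      have : (cnt r K : ℝ) ≤ 9 * (cnt (1 / 2 ^ (j + 1)) K : ℝ) := by exact_mod_cast h6
      linarith
    have h9 : ((2 : ℝ) ^ (j + 1)) ^ e ≤ 2 ^ e * (1 / r) ^ e := by
      rw [← Real.mul_rpow (by norm_num) (by positivity)]
      apply Real.rpow_le_rpow (by positivity) _ he0.le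
      rw [pow_succ]
      linarith
    have hlog : 0 < Real.log (1 / r) := Real.log_pos hr1
    rcases Nat.eq_zero_or_pos (cnt r K) with h0 | h0
    · rw [h0, Nat.cast_zero, Real.log_zero, zero_div]
      linarith
    have h10 : Real.log (cnt r K) ≤ Real.log (9 * 2 ^ e) + e * Real.log (1 / r) := by
      have h11 : (cnt r K : ℝ) ≤ (9 * 2 ^ e) * (1 / r) ^ e := by
        refine h8.trans ?_
        rw [mul_assoc]
        exact mul_le_mul_of_nonneg_left h9 (by norm_num)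
      have h12 := Real.log_le_log (by exact_mod_cast h0) h11
      rwa [Real.log_mul (by positivity) (by positivity), Real.log_rpow (by positivity)] at h12
    have h13 : Real.log (cnt r K) / Real.log (1 / r) ≤
        Real.log (9 * 2 ^ e) / Real.log (1 / r) + e := by
      rw [div_le_iff₀ hlog, add_mul, div_mul_cancel₀ _ hlog.ne']
      exact h10
    linarith

end Pool.Agent.W2helper77.OM
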