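import Pool.Agent.W2helper77.OM.Upp

/-!
# Accessible vertices of all macroscopic clusters, all scales: the lattice theorem
-/

set_option autoImplicit false

namespace Pool.Agent.W2helper77.OM

open H974 H12S Finset H389NS H984P H984N H342P H342L H342T
open Pool.Agent.W424.OD
open Pool.Agent.W2helper82.OA (Thk RichOut Enr S_FINL Clu)
open Pool.Agent.W2helper82.OA.P20 (clu_eq)
open Pool.Agent.W2helper75.OB (cl_eq)

/-- comparison of two side lengths -/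
theorem card_up {p m : ℕ} (hp : 1 ≤ p) (hpm : p ≤ m) (A : Finset Vtx) :
    (A.image (sqr m)).card ≤ 4 * (A.image (sqr p)).card := by
  classical
  have hp' : (0 : ℤ) < p := by exact_mod_cast hp
  have hm' : (0 : ℤ) < m := by omega
  have hpm' : (p : ℤ) ≤ m := by exact_mod_cast hpm
  have h' : ∀ Q ∈ A.image (sqr m), ∃ q ∈ A.image (sqr p),
      (((p : ℤ) * q.1) / m ≤ Q.1 ∧ Q.1 ≤ ((p : ℤ) * q.1) / m + 1) ∧
      (((p : ℤ) * q.2) / m ≤ Q.2 ∧ Q.2 ≤ ((p : ℤ) * q.2) / m + 1) := by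
    intro Q hQ
    obtain ⟨u, hu, rfl⟩ := Finset.mem_image.1 hQ
    refine ⟨sqr p u, Finset.mem_image_of_mem _ hu, ?_⟩
    have key : ∀ a : ℤ, ((p : ℤ) * (a / p)) / m ≤ a / m ∧
        a / m ≤ ((p : ℤ) * (a / p)) / m + 1 := by
      intro a
      have e1 := Int.emod_nonneg a hp'.ne'
      have e2 := Int.emod_lt_of_pos a hp'
      have e3 := Int.mul_ediv_add_emod a p
      constructor
      · exact Int.ediv_le_ediv hm' (by linarith)
      · have h1 : a ≤ (p : ℤ) * (a / p) + m * 1 := by linarith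
        have h2 := Int.ediv_le_ediv hm' h1
        rwa [Int.add_mul_ediv_left _ _ hm'.ne'] at h2
    exact ⟨key u.1, key u.2⟩
  choose! f hf1 hf2 using h'
  have h1 : ((A.image (sqr m)).image f).card ≤ (A.image (sqr p)).card := by
    apply Finset.card_le_card
    intro r hr
    obtain ⟨q, hq, rfl⟩ := Finset.mem_image.1 hr
    exact hf1 q hq
  have h2 : (A.image (sqr m)).card ≤ 4 * ((A.image (sqr m)).image f).card := by
    apply Finset.card_le_mul_card_image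
    intro r _
    have h3 : ((A.image (sqr m)).filter (fun q => f q = r)) ⊆
        Finset.Icc (((p : ℤ) * r.1) / m) (((p : ℤ) * r.1) / m + 1) ×ˢ
          Finset.Icc (((p : ℤ) * r.2) / m) (((p : ℤ) * r.2) / m + 1) := by
      intro q hq
      obtain ⟨h4, h5⟩ := Finset.mem_filter.1 hq
      have h6 := hf2 q h4
      rw [h5] at h6
      rw [Finset.mem_product, Finset.mem_Icc, Finset.mem_Icc]
      exact h6
    refine (Finset.card_le_card h3).trans ?_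
    rw [Finset.card_product, Int.card_Icc, Int.card_Icc]
    have e1 : ∀ X : ℤ, (X + 1 + 1 - X).toNat = 2 := by intro X; omega
    rw [e1, e1]
  exact h2.trans (Nat.mul_le_mul_left 4 h1)

theorem bxs_one (n : ℕ) (F : Finset Edg) (v : Vtx) : bxs 1 n F v = (accessible n F v).card := by
  classical
  unfold bxs
  have : sqr 1 = id := by
    funext w
    unfold sqr
    simp
  rw [this, Finset.image_id]

/-- upper bounds, all scales -/
theorem upp (hU : U3) {ρ δ ε : ℝ} (hρ : 0 < ρ) (hδ : 0 < δ) (hε : 0 < ε) :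
    ∃ C : ℝ, 0 < C ∧ ∀ n : ℕ, 1 ≤ n → Pr (fun _ => (1/2:ℝ)) (RE 0 n 0 n) (fun F =>
      ∃ v, Mac ρ n F v ∧ ¬ (((accessible n F v).card : ℝ) ≤ C * (n : ℝ) ^ (4/3 : ℝ) ∧
        ∀ m : ℕ, 1 ≤ m → m ≤ n → (bxs m n F v : ℝ) ≤ C * ((n : ℝ) / m) ^ (4/3 + ε))) ≤ δ := by
  obtain ⟨C0, hC0, hU'⟩ := hU
  obtain ⟨A, hA, hEx⟩ := ex_NU hC0.le hU' hρ
  set r : ℝ := (2:ℝ) ^ (-ε) with hr
  have hr0 : 0 < r := by positivity
  have hr1 : r < 1 := Real.rpow_lt_one_of_one_lt_of_neg (by norm_num) (by linarith)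
  set K : ℝ := A * (1 + 1 / (1 - r)) / δ with hK
  have h1r : 0 < 1 - r := by linarith
  have hK0 : 0 < K := by positivity
  refine ⟨4 * K * 2 ^ (4/3 + ε), by positivity, ?_⟩
  intro n hn
  have hn' : (0 : ℝ) < n := by exact_mod_cast hn
  have hn1 : (1 : ℝ) ≤ n := by exact_mod_cast hn
  have h2e : (1 : ℝ) ≤ 2 ^ (4/3 + ε) := Real.one_le_rpow (by norm_num) (by linarith)
  set L : ℕ := Nat.log 2 n with hL
  -- inclusion
  have hinc : Pr (fun _ => (1/2:ℝ)) (RE 0 n 0 n) (fun F =>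
      ∃ v, Mac ρ n F v ∧ ¬ (((accessible n F v).card : ℝ) ≤
        4 * K * 2 ^ (4/3 + ε) * (n : ℝ) ^ (4/3 : ℝ) ∧
        ∀ m : ℕ, 1 ≤ m → m ≤ n → (bxs m n F v : ℝ) ≤
          4 * K * 2 ^ (4/3 + ε) * ((n : ℝ) / m) ^ (4/3 + ε))) ≤
      Pr (fun _ => (1/2:ℝ)) (RE 0 n 0 n) (fun F => K * (n : ℝ) ^ (4/3 : ℝ) ≤ NU ρ 1 n F ∨
        ∃ j ∈ Finset.range (L + 1), K * ((n : ℝ) / (2 ^ j : ℕ)) ^ (4/3 + ε) ≤ NU ρ (2 ^ j) n F) := by
    refine Pr_mono okh' ?_
    rintro F _ ⟨v, hv, hbad⟩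
    by_contra hcon
    push Not at hcon
    obtain ⟨h1, h2⟩ := hcon
    apply hbad
    constructor
    · have h3 := (bxs_le_NU le_rfl hv).trans h1.le
      rw [bxs_one] at h3
      refine h3.trans ?_
      have h4 : 0 ≤ K * (n : ℝ) ^ (4/3 : ℝ) := by positivity
      nlinarith
    · intro m hm hmn
      have hm0 : (0 : ℝ) < m := by exact_mod_cast hm
      set j : ℕ := Nat.log 2 m with hj
      have hj1 : 2 ^ j ≤ m := Nat.pow_log_le_self 2 (by omega)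
      have hj2 : m < 2 ^ (j + 1) := Nat.lt_pow_succ_log_self (by norm_num) m
      have hjL : j ∈ Finset.range (L + 1) := by
        rw [Finset.mem_range, Nat.lt_succ_iff]
        exact Nat.log_mono_right hmn
      have h3 := h2 j hjL
      have h4 : (bxs m n F v : ℝ) ≤ 4 * (bxs (2 ^ j) n F v : ℝ) := by
        exact_mod_cast card_up Nat.one_le_two_pow hj1 (accessible n F v)
      have h5 := (bxs_le_NU (m := 2 ^ j) Nat.one_le_two_pow hv).trans h3.le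
      have h6 : (n : ℝ) / (2 ^ j : ℕ) ≤ 2 * ((n : ℝ) / m) := by
        have h7 : (m : ℝ) ≤ 2 * ((2 ^ j : ℕ) : ℝ) := by
          have : m ≤ 2 * 2 ^ j := by rw [pow_succ] at hj2; omega
          exact_mod_cast this
        have h8 : (0 : ℝ) < ((2 ^ j : ℕ) : ℝ) := by positivity
        rw [div_le_iff₀ h8, mul_assoc, div_mul_eq_mul_div, mul_div_assoc', le_div_iff₀ hm0]
        nlinarith
      have h9 : ((n : ℝ) / (2 ^ j : ℕ)) ^ (4/3 + ε) ≤
          2 ^ (4/3 + ε) * ((n : ℝ) / m) ^ (4/3 + ε) := by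
        rw [← Real.mul_rpow (by norm_num) (by positivity)]
        exact Real.rpow_le_rpow (by positivity) h6 (by linarith)
      calc (bxs m n F v : ℝ) ≤ 4 * (bxs (2 ^ j) n F v : ℝ) := h4
        _ ≤ 4 * (K * ((n : ℝ) / (2 ^ j : ℕ)) ^ (4/3 + ε)) := by linarith
        _ ≤ 4 * (K * (2 ^ (4/3 + ε) * ((n : ℝ) / m) ^ (4/3 + ε))) := by gcongr
        _ = _ := by ring
  refine hinc.trans ?_
  refine (Pr_or_le okh' _ _ _).trans ?_
  have hP0 : Pr (fun _ => (1/2:ℝ)) (RE 0 n 0 n) (fun F => K * (n : ℝ) ^ (4/3 : ℝ) ≤ NU ρ 1 n F) ≤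
      A / K := by
    have h1 := markov (S := RE 0 n 0 n) (X := NU ρ 1 n) (fun F => NU_nonneg ρ 1 n F)
      (t := K * (n : ℝ) ^ (4/3 : ℝ)) (by positivity)
    have h2 := hEx 1 n le_rfl hn
    refine h1.trans ?_
    rw [div_le_div_iff₀ (by positivity) hK0]
    rw [Nat.cast_one, div_one] at h2
    nlinarith
  have hPj : ∀ j ∈ Finset.range (L + 1), Pr (fun _ => (1/2:ℝ)) (RE 0 n 0 n)
      (fun F => K * ((n : ℝ) / (2 ^ j : ℕ)) ^ (4/3 + ε) ≤ NU ρ (2 ^ j) n F) ≤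
      A / K * r ^ (L - j) := by
    intro j hj
    rw [Finset.mem_range, Nat.lt_succ_iff] at hj
    have hLn : 2 ^ L ≤ n := Nat.pow_log_le_self 2 (by omega)
    have hjn : 2 ^ j ≤ n := (Nat.pow_le_pow_right (by norm_num) hj).trans hLn
    have h8 : (0 : ℝ) < ((2 ^ j : ℕ) : ℝ) := by positivity
    have hx0 : (0 : ℝ) < (n : ℝ) / (2 ^ j : ℕ) := by positivity
    have h1 := markov (S := RE 0 n 0 n) (X := NU ρ (2 ^ j) n) (fun F => NU_nonneg ρ (2 ^ j) n F)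
      (t := K * ((n : ℝ) / (2 ^ j : ℕ)) ^ (4/3 + ε)) (by positivity)
    have h2 := hEx (2 ^ j) n Nat.one_le_two_pow hjn
    refine h1.trans ?_
    have h3 : (2 : ℝ) ^ (L - j) ≤ (n : ℝ) / (2 ^ j : ℕ) := by
      rw [le_div_iff₀ h8]
      have : 2 ^ (L - j) * 2 ^ j ≤ n := by
        rw [← pow_add, Nat.sub_add_cancel hj]; exact hLn
      exact_mod_cast this
    have h4 : ((n : ℝ) / (2 ^ j : ℕ)) ^ (-ε) ≤ r ^ (L - j) := by
      have h5 : ((n : ℝ) / (2 ^ j : ℕ)) ^ (-ε) ≤ ((2 : ℝ) ^ (L - j)) ^ (-ε) :=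
        Real.rpow_le_rpow_of_nonpos (by positivity) h3 (by linarith)
      refine h5.trans (le_of_eq ?_)
      rw [hr, ← Real.rpow_natCast, ← Real.rpow_natCast, ← Real.rpow_mul (by norm_num),
        ← Real.rpow_mul (by norm_num), mul_comm]
    rw [div_le_iff₀ (by positivity)]
    have h6 : ((n : ℝ) / (2 ^ j : ℕ)) ^ (4/3 + ε) * ((n : ℝ) / (2 ^ j : ℕ)) ^ (-ε) =
        ((n : ℝ) / (2 ^ j : ℕ)) ^ (4/3 : ℝ) := by
      rw [← Real.rpow_add hx0]
      congr 1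
      ring
    have h7 : A * ((n : ℝ) / (2 ^ j : ℕ)) ^ (4/3 : ℝ) ≤
        A * (((n : ℝ) / (2 ^ j : ℕ)) ^ (4/3 + ε) * r ^ (L - j)) := by
      rw [← h6]
      gcongr
    refine h2.trans (h7.trans (le_of_eq ?_))
    field_simp
  have hPs : Pr (fun _ => (1/2:ℝ)) (RE 0 n 0 n) (fun F =>
      ∃ j ∈ Finset.range (L + 1), K * ((n : ℝ) / (2 ^ j : ℕ)) ^ (4/3 + ε) ≤ NU ρ (2 ^ j) n F) ≤
      A / K * (1 / (1 - r)) := by
    refine (Pr_exists_le okh' _ _ _).trans ((Finset.sum_le_sum hPj).trans ?_)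
    rw [← Finset.mul_sum]
    refine mul_le_mul_of_nonneg_left ?_ (by positivity)
    have h1 : ∑ j ∈ Finset.range (L + 1), r ^ (L - j) = ∑ j ∈ Finset.range (L + 1), r ^ j := by
      rw [← Finset.sum_range_reflect]
      apply Finset.sum_congr rfl
      intro j hj
      rw [Finset.mem_range] at hj
      congr 1
      omega
    rw [h1, geom_sum_eq hr1.ne]
    have h2 : (r ^ (L + 1) - 1) / (r - 1) = (1 - r ^ (L + 1)) / (1 - r) := by
      rw [← neg_sub 1 (r ^ (L + 1)), ← neg_sub 1 r, neg_div_neg_eq]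
    rw [h2]
    gcongr
    have : 0 ≤ r ^ (L + 1) := by positivity
    linarith
  refine (add_le_add hP0 hPs).trans (le_of_eq ?_)
  rw [hK]
  field_simp

/-- lower bounds, all scales -/
theorem low (hG : S_FINL) {ρ δ ε : ℝ} (hρ : 0 < ρ) (hδ : 0 < δ) (hε : 0 < ε) :
    ∃ (c : ℝ) (n0 : ℕ), 0 < c ∧ ∀ n : ℕ, n0 ≤ n → Pr (fun _ => (1/2:ℝ)) (RE 0 n 0 n) (fun F =>
      ∃ v, Mac ρ n F v ∧ ¬ (c * (n : ℝ) ^ (4/3 : ℝ) ≤ ((accessible n F v).card : ℝ) ∧
        ∀ m : ℕ, 1 ≤ m → m ≤ n → c * ((n : ℝ) / m) ^ (4/3 - ε) ≤ (bxs m n F v : ℝ))) ≤ δ := by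
  have hme : 0 < min ε 1 := lt_min hε one_pos
  have hme1 : min ε 1 ≤ 1 := min_le_right _ _
  obtain ⟨K', hK'⟩ : ∃ K' : ℕ, 4 / ρ ≤ K' := exists_nat_ge _
  obtain ⟨M, B, N1, c0, E0, hB, hc0, hE0, h⟩ := hG (4/3 - min ε 1) (by linarith) (by linarith)
    (K' + 1) δ (by omega) hδ
  obtain ⟨n1, hn1⟩ : ∃ n1 : ℕ, 4 / ρ ≤ n1 := exists_nat_ge _
  refine ⟨min (c0 / 25) (c0 ^ 2 / (25 * E0)), max (max N1 n1) 2, by positivity, ?_⟩
  intro n hn
  have hnN : N1 ≤ n := ((le_max_left _ _).trans (le_max_left _ _)).trans hn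
  have hnn : n1 ≤ n := ((le_max_right _ _).trans (le_max_left _ _)).trans hn
  have hn2 : 2 ≤ n := (le_max_right _ _).trans hn
  have hn' : (0 : ℝ) < n := by exact_mod_cast (by omega : 0 < n)
  obtain ⟨k, hk⟩ : ∃ k : ℕ, k = n / (K' + 1) + 1 := ⟨_, rfl⟩
  have hk1 : n ≤ (K' + 1) * k := by
    rw [hk]
    exact (Nat.lt_mul_div_succ n (Nat.succ_pos K')).le
  have hk2 : k ≤ n := by
    rcases Nat.eq_zero_or_pos K' with h0 | h0
    · exfalso
      rw [h0, Nat.cast_zero] at hK'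
      have : 0 < 4 / ρ := by positivity
      linarith
    · have : n / (K' + 1) ≤ n / 2 := Nat.div_le_div_left (by omega) (by norm_num)
      omega
  have hkρ : (k : ℝ) ≤ ρ * n / 2 := by
    have h1 : ((n / (K' + 1) : ℕ) : ℝ) ≤ ρ * n / 4 := by
      have h2 : ((n / (K' + 1) : ℕ) : ℝ) ≤ (n : ℝ) / ((K' + 1 : ℕ) : ℝ) := Nat.cast_div_le
      refine h2.trans ?_
      have h3 : (4 : ℝ) / ρ ≤ ((K' + 1 : ℕ) : ℝ) := by push_cast; linarith
      have h4 : (0 : ℝ) < ((K' + 1 : ℕ) : ℝ) := by positivity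
      rw [div_le_iff₀ h4]
      rw [div_le_iff₀ hρ] at h3
      nlinarith
    have h5 : (1 : ℝ) ≤ ρ * n / 4 := by
      have h6 : (4 : ℝ) / ρ ≤ n := hn1.trans (by exact_mod_cast hnn)
      rw [div_le_iff₀ hρ] at h6
      linarith
    rw [hk]
    push_cast
    push_cast at h1
    linarith
  refine le_trans ?_ (h n k hnN hk1 hk2)
  refine Pr_mono okh' ?_
  rintro F hF ⟨v, ⟨hvb, a, ha, b, hb, hab⟩, hbad⟩
  have hFe : F ⊆ Plain.edges n := by rw [Plain.edges_eq]; exact hF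
  have hnot : ¬ RichOut n M B c0 E0 (4/3 - min ε 1) (Plain.cluster F v) := by
    intro hR
    obtain ⟨h1, h2⟩ := low_of_rich hn2 hFe hvb hc0 hE0 (by linarith) hR
    apply hbad
    constructor
    · refine le_trans ?_ h1
      gcongr
      exact min_le_left _ _
    · intro m hm hmn
      have hm0 : (0 : ℝ) < m := by exact_mod_cast hm
      refine le_trans ?_ (h2 m hm)
      have h3 : (1 : ℝ) ≤ (n : ℝ) / m := by
        rw [le_div_iff₀ hm0, one_mul]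
        exact_mod_cast hmn
      have h4 : ((n : ℝ) / m) ^ (4/3 - ε) ≤ ((n : ℝ) / m) ^ (4/3 - min ε 1) :=
        Real.rpow_le_rpow_of_exponent_le h3 (by linarith [min_le_left ε 1])
      exact mul_le_mul (min_le_right _ _) h4 (by positivity) (by positivity)
  have hin : ∀ x ∈ Plain.cluster F v, inR 0 n 0 n x := by
    intro x hx
    have h1 := TOPB_cluster hFe hvb hx
    unfold Plain.box at h1
    rw [Finset.mem_coe, Finset.mem_product, Finset.mem_Icc, Finset.mem_Icc] at h1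
    exact h1
  have hfar : (k : ℤ) ≤ |a.1 - b.1| ∨ (k : ℤ) ≤ |a.2 - b.2| := by
    by_contra hcon
    push Not at hcon
    obtain ⟨h1, h2⟩ := hcon
    have h3 : Plain.sqDist a b ≤ 2 * (k : ℤ) ^ 2 := by
      unfold Plain.sqDist
      have h4 := sq_lt_sq' (abs_lt.1 h1).1 (abs_lt.1 h1).2
      have h5 := sq_lt_sq' (abs_lt.1 h2).1 (abs_lt.1 h2).2
      linarith
    have h6 : (Plain.sqDist a b : ℝ) ≤ 2 * (k : ℝ) ^ 2 := by exact_mod_cast h3
    have h7 : (k : ℝ) ^ 2 ≤ (ρ * n / 2) ^ 2 := pow_le_pow_left₀ (Nat.cast_nonneg _) hkρ 2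
    have h8 : 0 < (ρ * n) ^ 2 := by positivity
    nlinarith
  have hcl : ∀ x ∈ Plain.cluster F v, ∀ y ∈ Plain.cluster F v, y ∈ Clu n x F ∧
      ¬ RichOut n M B c0 E0 (4/3 - min ε 1) (Clu n x F) := by
    intro x hx y hy
    rw [clu_eq hF, cl_eq hx]
    exact ⟨hy, hnot⟩
  rcases hfar with h1 | h1
  · rcases abs_cases (a.1 - b.1) with ⟨h2, -⟩ | ⟨h2, -⟩
    · exact ⟨b, a, hin b hb, (hcl b hb a ha).1, Or.inl (by omega), (hcl b hb a ha).2⟩
    · exact ⟨a, b, hin a ha, (hcl a ha b hb).1, Or.inl (by omega), (hcl a ha b hb).2⟩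
  · rcases abs_cases (a.2 - b.2) with ⟨h2, -⟩ | ⟨h2, -⟩
    · exact ⟨b, a, hin b hb, (hcl b hb a ha).1, Or.inr (by omega), (hcl b hb a ha).2⟩
    · exact ⟨a, b, hin a ha, (hcl a ha b hb).1, Or.inr (by omega), (hcl a ha b hb).2⟩

end Pool.Agent.W2helper77.OM
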