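import Pool.Agent.W2helper75.OA.P20
import Pool.Agent.W801.AV.T_DET

/-!
# Accessible vertices of all macroscopic clusters, all scales: the deterministic lower bounds
-/

set_option autoImplicit false

namespace Pool.Agent.W2helper77.OM

open H974 H12S Finset H389NS H984P H984N H342P H342L H342T
open Pool.Agent.W424.OD
open Pool.Agent.Y989.FR (Awy)
open Pool.Agent.Y989.FR.LIM3 (sd_bdB)
open Pool.Agent.Y989.FR.TWO3 (sd_self)
open Pool.Agent.W2helper75.OB (Avo sd_nonneg')
open Pool.Agent.W2helper82.OA (Thk RichOut Enr)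
open Pool.Agent.W2helper82.OA.P20 (last_in awy_nmem thick_avo blk_conn reach_sd sd_le_iff)

/-- the square of side `m` which contains `w` -/
def sqr (m : ℕ) (w : Vtx) : Vtx := (w.1 / (m : ℤ), w.2 / (m : ℤ))

/-- number of the squares of side `m` which contain accessible vertices -/
noncomputable def bxs (m n : ℕ) (F : Finset Edg) (v : Vtx) : ℕ :=
  ((accessible n F v).image (sqr m)).card

/-- a cluster vertex with a thick path is near an accessible vertex -/
theorem acc_near {n : ℕ} (hn : 2 ≤ n) {F : Finset Edg} (hF : F ⊆ Plain.edges n) {v w : Vtx}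
    (hv : v ∈ Plain.box n) (hw : w ∈ Plain.cluster F v) {M B : ℕ}
    (hth : Thk M B (2 * n) w (Plain.cluster F v)) :
    ∃ u ∈ accessible n F v, sd u w ≤ 2 := by
  obtain ⟨x, hx, y, hy, hr⟩ := hth
  have hx' := sd_bdB hx
  have hy' := sd_bdB hy
  have hxy : x ≠ y := by
    rintro rfl
    rw [hx'] at hy'
    have : (2:ℕ) = 2 * n := by exact_mod_cast hy'
    omega
  have hxC : x ∉ Plain.cluster F v := by
    rcases Relation.ReflTransGen.cases_head hr with h | ⟨c, ⟨g, ⟨h1, h2, h3⟩, h4⟩, -⟩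
    · exact absurd h hxy
    · rcases h4 with ⟨h6, h7⟩ | ⟨h6, h7⟩
      · rw [← h6]; exact awy_nmem h2
      · rw [← h7]; exact awy_nmem h3
  have hwb : w ∈ Plain.box n := TOPB_cluster hF hv hw
  have hyb : y ∉ Plain.box n := by
    intro hyb
    unfold Plain.box at hyb hwb
    rw [Finset.mem_product, Finset.mem_Icc, Finset.mem_Icc] at hyb hwb
    have h1 : sd y w ≤ n := by
      unfold sd
      apply max_le <;> rw [abs_le] <;> omega
    rw [hy'] at h1
    push_cast at h1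
    omega
  have hya := thick_avo hr
  have h2 : Reach (↑(blk w 2) : Set Edg) w x := blk_conn (by rw [hx'])
  rcases last_in h2 hxC with ⟨h3, -⟩ | ⟨u, p, h3, h4, h5, h6, h7⟩
  · exact absurd hw h3
  · refine ⟨u, ?_, reach_sd subset_rfl h6⟩
    classical
    unfold accessible
    refine Finset.mem_filter.2 ⟨TOPB_cluster hF hv h3, h3, ?_⟩
    obtain ⟨e, -, he⟩ := h5
    refine ⟨e, p, y, ?_, h4, hyb, ?_⟩
    · rw [Plain.fst_eq, Plain.snd_eq]
      exact he
    · apply Pool.Agent.W801.AV.TDET.reach_avoid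
      refine (h7.trans hya).mono ?_
      rintro g ⟨h8, h9⟩
      refine ⟨?_, ?_⟩
      · rw [Plain.mem_cluster]; exact h8
      · rw [Plain.mem_cluster]; exact h9

theorem div_near {m : ℕ} (hm : 1 ≤ m) {a b : ℤ} (h1 : b - 2 ≤ a) (h2 : a ≤ b + 2) :
    a / (m : ℤ) - 2 ≤ b / (m : ℤ) ∧ b / (m : ℤ) ≤ a / (m : ℤ) + 2 := by
  have hm' : (1 : ℤ) ≤ m := by exact_mod_cast hm
  have ha := Int.emod_nonneg a (by omega : (m : ℤ) ≠ 0)
  have ha' := Int.emod_lt_of_pos a (by omega : (0 : ℤ) < m)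
  have hb := Int.emod_nonneg b (by omega : (m : ℤ) ≠ 0)
  have hb' := Int.emod_lt_of_pos b (by omega : (0 : ℤ) < m)
  have e1 := Int.mul_ediv_add_emod a m
  have e2 := Int.mul_ediv_add_emod b m
  constructor <;> nlinarith

/-- squares of the rich vertices and squares of the accessible vertices -/
theorem card_sq {m : ℕ} (hm : 1 ≤ m) {A V : Finset Vtx}
    (h : ∀ w ∈ V, ∃ u ∈ A, sd u w ≤ 2) : (V.image (sqr m)).card ≤ 25 * (A.image (sqr m)).card := by
  classical
  have h' : ∀ q ∈ V.image (sqr m), ∃ r ∈ A.image (sqr m),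
      (r.1 - 2 ≤ q.1 ∧ q.1 ≤ r.1 + 2) ∧ (r.2 - 2 ≤ q.2 ∧ q.2 ≤ r.2 + 2) := by
    intro q hq
    obtain ⟨w, hw, rfl⟩ := Finset.mem_image.1 hq
    obtain ⟨u, hu, huw⟩ := h w hw
    rw [sd_le_iff] at huw
    refine ⟨sqr m u, Finset.mem_image_of_mem _ hu, ?_, ?_⟩
    · exact div_near hm huw.1.1 huw.1.2
    · exact div_near hm huw.2.1 huw.2.2
  choose! f hf1 hf2 using h'
  have h1 : ((V.image (sqr m)).image f).card ≤ (A.image (sqr m)).card := by
    apply Finset.card_le_card
    intro r hr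
    obtain ⟨q, hq, rfl⟩ := Finset.mem_image.1 hr
    exact hf1 q hq
  have h2 : (V.image (sqr m)).card ≤ 25 * ((V.image (sqr m)).image f).card := by
    apply Finset.card_le_mul_card_image
    intro r _
    have h3 : ((V.image (sqr m)).filter (fun q => f q = r)) ⊆
        Finset.Icc (r.1 - 2) (r.1 + 2) ×ˢ Finset.Icc (r.2 - 2) (r.2 + 2) := by
      intro q hq
      obtain ⟨h4, h5⟩ := Finset.mem_filter.1 hq
      have h6 := hf2 q h4
      rw [h5] at h6
      rw [Finset.mem_product, Finset.mem_Icc, Finset.mem_Icc]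
      exact h6
    refine (Finset.card_le_card h3).trans ?_
    rw [Finset.card_product, Int.card_Icc, Int.card_Icc]
    have e1 : (r.1 + 2 + 1 - (r.1 - 2)).toNat = 5 := by omega
    have e2 : (r.2 + 2 + 1 - (r.2 - 2)).toNat = 5 := by omega
    rw [e1, e2]
  exact h2.trans (Nat.mul_le_mul_left 25 h1)

/-- Two vertices of one square are near. -/
theorem sd_of_sq {m : ℕ} (hm : 1 ≤ m) {v w : Vtx} (h : sqr m v = sqr m w) : sd v w ≤ (m : ℤ) := by
  have hm' : (0 : ℤ) < m := by exact_mod_cast hm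
  have key : ∀ a b : ℤ, a / (m : ℤ) = b / (m : ℤ) → a - m ≤ b ∧ b ≤ a + m := by
    intro a b hab
    have ha := Int.emod_nonneg a hm'.ne'
    have ha' := Int.emod_lt_of_pos a hm'
    have hb := Int.emod_nonneg b hm'.ne'
    have hb' := Int.emod_lt_of_pos b hm'
    have e1 := Int.mul_ediv_add_emod a m
    have e2 := Int.mul_ediv_add_emod b m
    rw [hab] at e1
    constructor <;> linarith
  unfold sqr at h
  rw [Prod.mk.injEq] at h
  rw [sd_le_iff]
  have h1 := key _ _ h.1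
  have h2 := key _ _ h.2
  omega

/-- Second moment bound for the number of squares. -/
theorem sq_energy {m : ℕ} (hm : 1 ≤ m) {t : ℝ} (ht : 0 ≤ t) (V : Finset Vtx) :
    (V.card : ℝ) ^ 2 ≤ ((V.image (sqr m)).card : ℝ) * ((m : ℝ) ^ t * Enr t V) := by
  classical
  have hm0 : (0 : ℝ) < m := by exact_mod_cast hm
  have h1 : (V.card : ℝ) = ∑ q ∈ V.image (sqr m), ((V.filter (fun w => sqr m w = q)).card : ℝ) := by
    have := Finset.card_eq_sum_card_image (sqr m) V
    exact_mod_cast this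
  have h2 : (∑ q ∈ V.image (sqr m), ((V.filter (fun w => sqr m w = q)).card : ℝ)) ^ 2 ≤
      ((V.image (sqr m)).card : ℝ) *
        ∑ q ∈ V.image (sqr m), ((V.filter (fun w => sqr m w = q)).card : ℝ) ^ 2 :=
    sq_sum_le_card_mul_sum_sq
  rw [h1]
  refine h2.trans (mul_le_mul_of_nonneg_left ?_ (Nat.cast_nonneg _))
  -- the sum of the squares
  have h3 : ∑ q ∈ V.image (sqr m), ((V.filter (fun w => sqr m w = q)).card : ℝ) ^ 2 =
      ∑ v ∈ V, ((V.filter (fun w => sqr m w = sqr m v)).card : ℝ) := by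
    rw [← Finset.sum_fiberwise_of_maps_to (s := V) (t := V.image (sqr m)) (g := sqr m)
      (fun x hx => Finset.mem_image_of_mem _ hx)]
    apply Finset.sum_congr rfl
    intro q _
    rw [Finset.sum_congr rfl (g := fun _ => ((V.filter (fun w => sqr m w = q)).card : ℝ))]
    · rw [Finset.sum_const, nsmul_eq_mul, pow_two]
    · intro v hv
      rw [(Finset.mem_filter.1 hv).2]
  rw [h3]
  unfold Enr
  rw [Finset.mul_sum]
  refine Finset.sum_le_sum fun v _ => ?_
  rw [Finset.card_filter, Finset.mul_sum]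
  simp only [Nat.cast_sum, Nat.cast_ite, Nat.cast_one, Nat.cast_zero]
  refine Finset.sum_le_sum fun w _ => ?_
  have hmax : (1 : ℝ) ≤ ((max (sd v w) 1 : ℤ) : ℝ) := by exact_mod_cast le_max_right (sd v w) 1
  have hpos : 0 < ((max (sd v w) 1 : ℤ) : ℝ) := by linarith
  split_ifs with h
  · have h4 := sd_of_sq hm h.symm
    have h5 : ((max (sd v w) 1 : ℤ) : ℝ) ≤ m := by
      have : max (sd v w) 1 ≤ (m : ℤ) := max_le h4 (by exact_mod_cast hm)
      exact_mod_cast this
    rw [Real.rpow_neg hpos.le, ← div_eq_mul_inv, le_div_iff₀ (by positivity), one_mul]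
    exact Real.rpow_le_rpow hpos.le h5 ht
  · positivity

/-- Rich clusters have many accessible vertices, at all scales. -/
theorem low_of_rich {n : ℕ} (hn : 2 ≤ n) {F : Finset Edg} (hF : F ⊆ Plain.edges n) {v : Vtx}
    (hv : v ∈ Plain.box n) {M B : ℕ} {c0 E0 t : ℝ} (hc0 : 0 < c0) (hE0 : 0 < E0) (ht : 0 < t)
    (hG : RichOut n M B c0 E0 t (Plain.cluster F v)) :
    c0 / 25 * (n : ℝ) ^ (4 / 3 : ℝ) ≤ ((accessible n F v).card : ℝ) ∧
    ∀ m : ℕ, 1 ≤ m → c0 ^ 2 / (25 * E0) * ((n : ℝ) / m) ^ t ≤ (bxs m n F v : ℝ) := by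
  classical
  obtain ⟨V, hV, hcard, hEn⟩ := hG
  have hn' : (0 : ℝ) < n := by exact_mod_cast (by omega : 0 < n)
  have hnear : ∀ w ∈ V, ∃ u ∈ accessible n F v, sd u w ≤ 2 := fun w hw =>
    acc_near hn hF hv (hV w hw).1 (hV w hw).2
  have key : ∀ m : ℕ, 1 ≤ m → ((V.image (sqr m)).card : ℝ) ≤ 25 * (bxs m n F v : ℝ) := by
    intro m hm
    exact_mod_cast card_sq hm hnear
  constructor
  · have h1 := key 1 le_rfl
    have e1 : ∀ A : Finset Vtx, A.image (sqr 1) = A := by
      intro A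
      have : sqr 1 = id := by
        funext w
        unfold sqr
        simp
      rw [this, Finset.image_id]
    unfold bxs at h1
    rw [e1, e1] at h1
    linarith
  · intro m hm
    have hm0 : (0 : ℝ) < m := by exact_mod_cast hm
    have h1 := key m hm
    have h2 := sq_energy hm ht.le V
    have h3 : (c0 * (n : ℝ) ^ (4/3 : ℝ)) ^ 2 ≤ (V.card : ℝ) ^ 2 :=
      pow_le_pow_left₀ (by positivity) hcard 2
    have h4 : (c0 * (n : ℝ) ^ (4/3 : ℝ)) ^ 2 = c0 ^ 2 * (n : ℝ) ^ (8/3 : ℝ) := by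
      rw [mul_pow, ← Real.rpow_natCast ((n : ℝ) ^ (4/3 : ℝ)) 2, ← Real.rpow_mul hn'.le]
      norm_num
    have h5 : ((V.image (sqr m)).card : ℝ) * ((m : ℝ) ^ t * Enr t V) ≤
        (25 * (bxs m n F v : ℝ)) * ((m : ℝ) ^ t * (E0 * (n : ℝ) ^ (8 / 3 - t))) := by
      refine mul_le_mul h1 (mul_le_mul_of_nonneg_left hEn (by positivity)) ?_ (by positivity)
      have : 0 ≤ Enr t V := by
        unfold Enr
        refine Finset.sum_nonneg fun a _ => Finset.sum_nonneg fun b _ => ?_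
        have hmax : (1 : ℝ) ≤ ((max (sd a b) 1 : ℤ) : ℝ) := by
          exact_mod_cast le_max_right (sd a b) 1
        positivity
      positivity
    have h6 : c0 ^ 2 * (n : ℝ) ^ (8/3 : ℝ) ≤
        (25 * (bxs m n F v : ℝ)) * ((m : ℝ) ^ t * (E0 * (n : ℝ) ^ (8 / 3 - t))) := by
      rw [← h4]
      exact h3.trans (h2.trans h5)
    have h7 : (n : ℝ) ^ (8/3 : ℝ) = (n : ℝ) ^ t * (n : ℝ) ^ (8 / 3 - t) := by
      rw [← Real.rpow_add hn']
      congr 1
      ring
    rw [h7] at h6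
    have h8 : 0 < (n : ℝ) ^ (8 / 3 - t) := by positivity
    have h9 : c0 ^ 2 * (n : ℝ) ^ t ≤ 25 * E0 * (m : ℝ) ^ t * (bxs m n F v : ℝ) := by
      refine le_of_mul_le_mul_right ?_ h8
      calc c0 ^ 2 * (n : ℝ) ^ t * (n : ℝ) ^ (8 / 3 - t)
          = c0 ^ 2 * ((n : ℝ) ^ t * (n : ℝ) ^ (8 / 3 - t)) := by ring
        _ ≤ _ := h6
        _ = _ := by ring
    rw [Real.div_rpow hn'.le hm0.le, div_mul_div_comm, div_le_iff₀ (by positivity)]
    linarith

end Pool.Agent.W2helper77.OM
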