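import Pool.Agent.W2helper77.OM.Low
import Pool.Agent.W424.OD.Cnt
import Pool.Agent.H974R2.Split

/-!
# Accessible vertices of all macroscopic clusters, all scales: the upper bounds
-/

set_option autoImplicit false

namespace Pool.Agent.W2helper77.OM

open H974 H12S Finset H389NS H984P H984N H342P H342L H342T
open Pool.Agent.W424.OD
open Pool.Agent.W2helper82.OA.P20 (sd_le_iff)

/-- The cluster of `v` has diameter at least `ρ n`. -/
def Mac (ρ : ℝ) (n : ℕ) (F : Finset Edg) (v : Vtx) : Prop :=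
  v ∈ Plain.box n ∧ ∃ a ∈ Plain.cluster F v, ∃ b ∈ Plain.cluster F v,
    (ρ * n) ^ 2 ≤ (Plain.sqDist a b : ℝ)

/-- The square `q` of side `m` contains an accessible vertex of a macroscopic cluster. -/
def US (ρ : ℝ) (m n : ℕ) (q : Vtx) (F : Finset Edg) : Prop :=
  ∃ v, Mac ρ n F v ∧ ∃ w ∈ accessible n F v, sqr m w = q

/-- number of these squares -/
noncomputable def NU (ρ : ℝ) (m n : ℕ) (F : Finset Edg) : ℝ :=
  ∑ q ∈ Finset.Icc (0:ℤ) (n / m : ℕ) ×ˢ Finset.Icc (0:ℤ) (n / m : ℕ), ind (US ρ m n q F)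

theorem NU_nonneg (ρ : ℝ) (m n : ℕ) (F : Finset Edg) : 0 ≤ NU ρ m n F :=
  Finset.sum_nonneg (fun _ _ => ind_nonneg _)

theorem okh' : Ok (fun _ : Edg => (1/2:ℝ)) := fun _ => ⟨by norm_num, by norm_num⟩

theorem mem_acc {n : ℕ} {F : Finset Edg} {v w : Vtx} (h : w ∈ accessible n F v) :
    w ∈ Plain.box n ∧ Accessible n F v w := by
  classical
  unfold accessible at h
  exact Finset.mem_filter.1 h

theorem bxs_le_NU {ρ : ℝ} {m n : ℕ} (hm : 1 ≤ m) {F : Finset Edg} {v : Vtx} (hv : Mac ρ n F v) :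
    (bxs m n F v : ℝ) ≤ NU ρ m n F := by
  classical
  unfold bxs NU
  rw [Finset.card_eq_sum_ones]
  push_cast
  have hsub : (accessible n F v).image (sqr m) ⊆
      Finset.Icc (0:ℤ) (n / m : ℕ) ×ˢ Finset.Icc (0:ℤ) (n / m : ℕ) := by
    intro q hq
    obtain ⟨w, hw, rfl⟩ := Finset.mem_image.1 hq
    have h1 := (mem_acc hw).1
    unfold Plain.box at h1
    rw [Finset.mem_product, Finset.mem_Icc, Finset.mem_Icc] at h1
    have hm' : (0 : ℤ) < m := by exact_mod_cast hm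
    unfold sqr
    rw [Finset.mem_product, Finset.mem_Icc, Finset.mem_Icc]
    push_cast
    exact ⟨⟨Int.ediv_nonneg h1.1.1 hm'.le, Int.ediv_le_ediv hm' h1.1.2⟩,
      Int.ediv_nonneg h1.2.1 hm'.le, Int.ediv_le_ediv hm' h1.2.2⟩
  refine le_trans (Finset.sum_le_sum (g := fun q => ind (US ρ m n q F)) ?_)
    (Finset.sum_le_sum_of_subset_of_nonneg hsub fun q _ _ => ind_nonneg _)
  intro q hq
  obtain ⟨w, hw, rfl⟩ := Finset.mem_image.1 hq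
  rw [ind_of]
  exact ⟨v, hv, w, hw, rfl⟩

theorem near_of_BX {c a b : Vtx} {k : ℕ} (ha : BX c k a) (hb : BX c k b) :
    Plain.sqDist a b ≤ 8 * (k : ℤ) ^ 2 := by
  unfold BX inR at ha hb
  unfold Plain.sqDist
  have h1 : |a.1 - b.1| ≤ 2 * (k : ℤ) := by rw [abs_le]; constructor <;> linarith
  have h2 : |a.2 - b.2| ≤ 2 * (k : ℤ) := by rw [abs_le]; constructor <;> linarith
  have h3 := sq_le_sq' (abs_le.1 h1).1 (abs_le.1 h1).2
  have h4 := sq_le_sq' (abs_le.1 h2).1 (abs_le.1 h2).2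
  nlinarith

/-- the three-arm event -/
theorem A3_of_US {ρ : ℝ} (hρ : 0 < ρ) {m n : ℕ} (hm : 1 ≤ m) (hn : 1 ≤ n) {F : Finset Edg}
    {q : Vtx} {κ : ℕ} (hκ : 1 ≤ κ) (hκ1 : (κ : ℝ) ≤ ρ * (n / m : ℕ) / 3)
    (hκ2 : (κ : ℤ) ≤ bdist (n / m) q) (h : US ρ m n q F) :
    A3v ((m : ℤ) * q.1, (m : ℤ) * q.2) m (m * κ) (↑F : Set Edg) := by
  obtain ⟨v, ⟨hvb, a, ha, b, hb, hab⟩, w, hw, hwq⟩ := h
  obtain ⟨hwb, hwc, e, p, z, he, hp, hz, hpz⟩ := mem_acc hw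
  have hm' : (0 : ℤ) < m := by exact_mod_cast hm
  have hM : m * (n / m) ≤ n := Nat.mul_div_le n m
  have hMR : (m : ℝ) * ((n / m : ℕ) : ℝ) ≤ n := by exact_mod_cast hM
  have hMZ : (m : ℤ) * ((n / m : ℕ) : ℤ) ≤ n := by exact_mod_cast hM
  have hq1 : q.1 = w.1 / (m : ℤ) := by rw [← hwq]; rfl
  have hq2 : q.2 = w.2 / (m : ℤ) := by rw [← hwq]; rfl
  have hw1 : (m : ℤ) * q.1 ≤ w.1 ∧ w.1 < m * q.1 + m := by
    have e1 := Int.emod_nonneg w.1 hm'.ne'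
    have e2 := Int.emod_lt_of_pos w.1 hm'
    have e3 := Int.mul_ediv_add_emod w.1 m
    rw [hq1]
    constructor <;> linarith
  have hw2 : (m : ℤ) * q.2 ≤ w.2 ∧ w.2 < m * q.2 + m := by
    have e1 := Int.emod_nonneg w.2 hm'.ne'
    have e2 := Int.emod_lt_of_pos w.2 hm'
    have e3 := Int.mul_ediv_add_emod w.2 m
    rw [hq2]
    constructor <;> linarith
  have hww : BX ((m : ℤ) * q.1, (m : ℤ) * q.2) m w := by
    unfold BX inR
    simp only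
    omega
  have hpw : BX ((m : ℤ) * q.1, (m : ℤ) * q.2) m p := by
    have hadj : (w.1 - 1 ≤ p.1 ∧ p.1 ≤ w.1 + 1) ∧ w.2 - 1 ≤ p.2 ∧ p.2 ≤ w.2 + 1 := by
      obtain ⟨x, y, t⟩ := e
      obtain ⟨w1, w2⟩ := w
      obtain ⟨p1, p2⟩ := p
      unfold Plain.fst Plain.snd at he
      cases t
      · simp only [Bool.false_eq_true, if_false, Prod.mk.injEq] at he
        simp only
        omega
      · simp only [if_true, Prod.mk.injEq] at he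
        simp only
        omega
    unfold BX inR
    simp only
    omega
  have hfar : ∃ x, Reach (↑F : Set Edg) v x ∧
      ¬ BX ((m : ℤ) * q.1, (m : ℤ) * q.2) (m * κ) x := by
    by_contra hcon
    push Not at hcon
    have h1 := hcon a ((Plain.mem_cluster _ _ _).1 ha)
    have h2 := hcon b ((Plain.mem_cluster _ _ _).1 hb)
    have h3 := near_of_BX h1 h2
    have h4 : (Plain.sqDist a b : ℝ) ≤ 8 * ((m * κ : ℕ) : ℝ) ^ 2 := by exact_mod_cast h3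
    have hn' : (0 : ℝ) < n := by exact_mod_cast hn
    have h5 : ((m * κ : ℕ) : ℝ) ≤ ρ * n / 3 := by
      push_cast
      calc (m : ℝ) * κ ≤ m * (ρ * (n / m : ℕ) / 3) :=
            mul_le_mul_of_nonneg_left hκ1 (Nat.cast_nonneg _)
        _ = ρ * (m * (n / m : ℕ)) / 3 := by ring
        _ ≤ ρ * n / 3 := by gcongr
    have h6 : (0 : ℝ) ≤ ((m * κ : ℕ) : ℝ) := Nat.cast_nonneg _
    have h7 : ((m * κ : ℕ) : ℝ) ^ 2 ≤ (ρ * n / 3) ^ 2 := pow_le_pow_left₀ h6 h5 2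
    have h8 : 0 < (ρ * n) ^ 2 := by positivity
    nlinarith
  obtain ⟨x', hx', hxf⟩ := hfar
  have hwR : Reach (↑F : Set Edg) v w := (Plain.mem_cluster _ _ _).1 hwc
  refine A3v_of (v := v) (x := w) (x' := x') (w := p) (w' := z) ?_ hww hwR hxf hx' hpw ?_
    (avoid_reach hpz)
  · exact Nat.le_mul_of_pos_right m (by omega)
  · intro hzb
    apply hz
    unfold Plain.box
    rw [Finset.mem_product, Finset.mem_Icc, Finset.mem_Icc]
    unfold BX inR at hzb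
    unfold bdist at hκ2
    push_cast at hzb
    have g1 : (κ : ℤ) ≤ q.1 := by omega
    have g2 : (κ : ℤ) ≤ ((n / m : ℕ) : ℤ) - q.1 := by omega
    have g3 : (κ : ℤ) ≤ q.2 := by omega
    have g4 : (κ : ℤ) ≤ ((n / m : ℕ) : ℤ) - q.2 := by omega
    have k1 := mul_le_mul_of_nonneg_left g1 hm'.le
    have k2 := mul_le_mul_of_nonneg_left g2 hm'.le
    have k3 := mul_le_mul_of_nonneg_left g3 hm'.le
    have k4 := mul_le_mul_of_nonneg_left g4 hm'.le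
    rw [mul_sub] at k2 k4
    exact ⟨⟨by linarith, by linarith⟩, by linarith, by linarith⟩

/-- the expected number of squares, first form -/
theorem ex_NU_le {C : ℝ} (hC : 0 ≤ C) (hU : ∀ (c : ℤ × ℤ) (d k : ℕ), 1 ≤ d → d ≤ k →
    ∀ S : Finset Edg, blk c k ⊆ S →
      PQ (1/2) S (fun F => A3v c d k ↑F) ≤ C * ((d:ℝ) / k) ^ (2/3 : ℝ))
    {ρ : ℝ} (hρ : 0 < ρ) {m n : ℕ} (hm : 1 ≤ m) (hn : 1 ≤ n) :
    Ex (fun _ => (1/2:ℝ)) (RE 0 n 0 n) (NU ρ m n) ≤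
      (((n / m : ℕ) : ℝ) + 1) ^ 2 * ph C (2/3) ⌊ρ * (n / m : ℕ) / 3⌋ +
        4 * (((n / m : ℕ) : ℝ) + 1) * ∑ x ∈ Finset.Icc (0:ℤ) (n / m : ℕ), ph C (2/3) x := by
  obtain ⟨M, hM⟩ : ∃ M : ℕ, M = n / m := ⟨_, rfl⟩
  have hm0 : (0 : ℝ) < m := by exact_mod_cast hm
  have h1 : Ex (fun _ => (1/2:ℝ)) (RE 0 n 0 n) (NU ρ m n) ≤
      ∑ w ∈ Finset.Icc (0:ℤ) M ×ˢ Finset.Icc (0:ℤ) M, (ph C (2/3) ⌊ρ * M / 3⌋ +
        (ph C (2/3) w.1 + ph C (2/3) (M - w.1) + (ph C (2/3) w.2 + ph C (2/3) (M - w.2)))) := by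
    have e0 : NU ρ m n = fun F => ∑ q ∈ Finset.Icc (0:ℤ) M ×ˢ Finset.Icc (0:ℤ) M,
        ind (US ρ m n q F) := by
      funext F
      unfold NU
      rw [hM]
    rw [e0, Ex_sum]
    apply Finset.sum_le_sum
    intro w _
    refine le_trans ?_ (ph_min (s := 2/3) hC M ⌊ρ * M / 3⌋ w)
    set k : ℤ := min ⌊ρ * M / 3⌋ (bdist M w) with hk
    unfold ph
    split_ifs with h
    · exact Pr_le_one okh' _ (fun F => US ρ m n w F)
    · push Not at h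
      obtain ⟨κ, hκ⟩ : ∃ κ : ℕ, (κ : ℤ) = k := ⟨k.toNat, Int.toNat_of_nonneg h.le⟩
      have hκ1 : 1 ≤ κ := by omega
      have hkf : (κ : ℤ) ≤ ⌊ρ * M / 3⌋ := by rw [hκ]; exact min_le_left _ _
      have hkb : (κ : ℤ) ≤ bdist M w := by rw [hκ]; exact min_le_right _ _
      have hkf' : (κ : ℝ) ≤ ρ * M / 3 := by
        have := Int.le_floor.1 hkf
        exact_mod_cast this
      have hMm : m * M ≤ n := by rw [hM]; exact Nat.mul_div_le n m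
      have hb : ((m * κ : ℕ) : ℤ) ≤ bdist n ((m : ℤ) * w.1, (m : ℤ) * w.2) := by
        have hm' : (0 : ℤ) < m := by exact_mod_cast hm
        have hMZ : (m : ℤ) * (M : ℤ) ≤ n := by exact_mod_cast hMm
        unfold bdist at hkb ⊢
        have g1 : (κ : ℤ) ≤ w.1 := by omega
        have g2 : (κ : ℤ) ≤ (M : ℤ) - w.1 := by omega
        have g3 : (κ : ℤ) ≤ w.2 := by omega
        have g4 : (κ : ℤ) ≤ (M : ℤ) - w.2 := by omega
        have k1 := mul_le_mul_of_nonneg_left g1 hm'.le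
        have k2 := mul_le_mul_of_nonneg_left g2 hm'.le
        have k3 := mul_le_mul_of_nonneg_left g3 hm'.le
        have k4 := mul_le_mul_of_nonneg_left g4 hm'.le
        rw [mul_sub] at k2 k4
        push_cast
        exact le_min (le_min (by linarith) (by linarith)) (le_min (by linarith) (by linarith))
      have h2 := hU ((m : ℤ) * w.1, (m : ℤ) * w.2) m (m * κ) hm
        (Nat.le_mul_of_pos_right m (by omega)) (RE 0 n 0 n) (blk_sub hb)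
      have h3 : ((m : ℝ) / ((m * κ : ℕ) : ℝ)) ^ (2/3 : ℝ) = (k : ℝ) ^ (-(2/3) : ℝ) := by
        have hkr : (k : ℝ) = κ := by rw [← hκ]; norm_cast
        rw [hkr]
        have hκ0 : (0 : ℝ) < κ := by exact_mod_cast hκ1
        push_cast
        rw [div_mul_cancel_left₀ hm0.ne', Real.inv_rpow hκ0.le, Real.rpow_neg hκ0.le]
      rw [h3] at h2
      refine le_trans ?_ h2
      refine Pr_mono okh' ?_
      intro F _ hF
      exact A3_of_US hρ hm hn hκ1 (by rw [← hM]; exact hkf') (by rw [← hM]; exact hkb) hF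
  rw [← hM]
  refine h1.trans (le_of_eq ?_)
  rw [Finset.sum_product]
  have hc : (Finset.Icc (0:ℤ) M).card = M + 1 := by
    rw [Int.card_Icc]; omega
  simp_rw [Finset.sum_add_distrib, Finset.sum_const, hc, sum_refl M (ph C (2/3))]
  simp_rw [nsmul_eq_mul]
  have hr : ∑ x ∈ Finset.Icc (0:ℤ) M, ((M + 1 : ℕ) : ℝ) * ph C (2/3) (M - x) =
      ((M + 1 : ℕ) : ℝ) * ∑ x ∈ Finset.Icc (0:ℤ) M, ph C (2/3) x := by
    rw [← Finset.mul_sum, sum_refl M (ph C (2/3))]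
  have hr2 : ∑ x ∈ Finset.Icc (0:ℤ) M, ((M + 1 : ℕ) : ℝ) * ph C (2/3) x =
      ((M + 1 : ℕ) : ℝ) * ∑ x ∈ Finset.Icc (0:ℤ) M, ph C (2/3) x := by
    rw [← Finset.mul_sum]
  simp only [hr, hr2]
  push_cast
  ring

/-- the expected number of squares -/
theorem ex_NU {C : ℝ} (hC : 0 ≤ C) (hU : ∀ (c : ℤ × ℤ) (d k : ℕ), 1 ≤ d → d ≤ k →
    ∀ S : Finset Edg, blk c k ⊆ S →
      PQ (1/2) S (fun F => A3v c d k ↑F) ≤ C * ((d:ℝ) / k) ^ (2/3 : ℝ))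
    {ρ : ℝ} (hρ : 0 < ρ) : ∃ A : ℝ, 0 < A ∧ ∀ m n : ℕ, 1 ≤ m → m ≤ n →
    Ex (fun _ => (1/2:ℝ)) (RE 0 n 0 n) (NU ρ m n) ≤ A * ((n : ℝ) / m) ^ (4/3 : ℝ) := by
  refine ⟨4 * (C + 1) * (6 / ρ) ^ (2/3 : ℝ) + 8 * (1 + C * 3), by positivity, ?_⟩
  intro m n hm hmn
  have hn : 1 ≤ n := hm.trans hmn
  have h0 := ex_NU_le hC hU hρ hm hn
  have h5 := sum_ph_le (s := 2/3) hC (by norm_num) (by norm_num) (n / m)
  obtain ⟨M, hM⟩ : ∃ M : ℕ, M = n / m := ⟨_, rfl⟩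
  rw [← hM] at h0 h5
  have hm0 : (0 : ℝ) < m := by exact_mod_cast hm
  have hM1 : 1 ≤ M := by rw [hM, Nat.one_le_div_iff hm]; exact hmn
  have hM1' : (1 : ℝ) ≤ M := by exact_mod_cast hM1
  have hM0 : (0 : ℝ) < M := by linarith
  have hMn : (M : ℝ) ≤ n / m := by
    rw [le_div_iff₀ hm0]
    have : M * m ≤ n := by rw [hM]; exact Nat.div_mul_le_self n m
    exact_mod_cast this
  have hpow : (M : ℝ) ^ (4/3 : ℝ) ≤ ((n : ℝ) / m) ^ (4/3 : ℝ) :=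
    Real.rpow_le_rpow hM0.le hMn (by norm_num)
  refine le_trans ?_ (mul_le_mul_of_nonneg_left hpow (by positivity))
  refine h0.trans ?_
  have e1 : (M : ℝ) ^ (4/3 : ℝ) = (M : ℝ) ^ 2 * (M : ℝ) ^ (-(2/3) : ℝ) := by
    rw [← Real.rpow_natCast, ← Real.rpow_add hM0]
    norm_num
  have e2 : (M : ℝ) ^ (4/3 : ℝ) = M * (M : ℝ) ^ (1 - 2/3 : ℝ) := by
    rw [show (4/3 : ℝ) = 1 + (1 - 2/3) by norm_num, Real.rpow_add hM0, Real.rpow_one]
  have h1 : ph C (2/3) ⌊ρ * M / 3⌋ ≤ (C + 1) * ((6 / ρ) ^ (2/3 : ℝ) * (M : ℝ) ^ (-(2/3) : ℝ)) := by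
    have e3 : (6 / ρ) ^ (2/3 : ℝ) * (M : ℝ) ^ (-(2/3) : ℝ) = (ρ * M / 6) ^ (-(2/3) : ℝ) := by
      rw [show (ρ * M / 6 : ℝ) = (6 / ρ)⁻¹ * M by field_simp, Real.mul_rpow (by positivity) hM0.le,
        Real.inv_rpow (by positivity), Real.rpow_neg (by positivity : (0:ℝ) ≤ 6 / ρ), inv_inv]
    rw [e3]
    unfold ph
    split_ifs with h
    · have h2 : ρ * M / 3 < 1 := by
        by_contra hcon
        push Not at hcon
        have : (1 : ℤ) ≤ ⌊ρ * M / 3⌋ := Int.le_floor.2 (by exact_mod_cast hcon)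
        omega
      have h3 : (1 : ℝ) ≤ (ρ * M / 6) ^ (-(2/3) : ℝ) := by
        apply Real.one_le_rpow_of_pos_of_le_one_of_nonpos (by positivity) (by linarith)
          (by norm_num)
      nlinarith
    · push Not at h
      have h2 : (1 : ℝ) ≤ (⌊ρ * M / 3⌋ : ℝ) := by exact_mod_cast h
      have h3 := Int.lt_floor_add_one (ρ * M / 3 : ℝ)
      have h4 : ρ * M / 6 ≤ (⌊ρ * M / 3⌋ : ℝ) := by linarith
      have h6 : (⌊ρ * M / 3⌋ : ℝ) ^ (-(2/3) : ℝ) ≤ (ρ * M / 6) ^ (-(2/3) : ℝ) :=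
        Real.rpow_le_rpow_of_nonpos (by positivity) h4 (by norm_num)
      have h7 : 0 ≤ (ρ * M / 6) ^ (-(2/3) : ℝ) := by positivity
      nlinarith
  have h2 : ((M : ℝ) + 1) ^ 2 * ph C (2/3) ⌊ρ * M / 3⌋ ≤
      4 * (C + 1) * (6 / ρ) ^ (2/3 : ℝ) * (M : ℝ) ^ (4/3 : ℝ) := by
    rw [e1]
    have h3 : ((M : ℝ) + 1) ^ 2 ≤ 4 * (M : ℝ) ^ 2 := by nlinarith
    calc ((M : ℝ) + 1) ^ 2 * ph C (2/3) ⌊ρ * M / 3⌋ ≤
          (4 * (M : ℝ) ^ 2) * ((C + 1) * ((6 / ρ) ^ (2/3 : ℝ) * (M : ℝ) ^ (-(2/3) : ℝ))) :=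
          mul_le_mul h3 h1 (ph_nonneg hC _) (by positivity)
      _ = _ := by ring
  have h3 : 4 * ((M : ℝ) + 1) * ∑ x ∈ Finset.Icc (0:ℤ) M, ph C (2/3) x ≤
      8 * (1 + C * 3) * (M : ℝ) ^ (4/3 : ℝ) := by
    have h11 : (1:ℝ) ≤ (M:ℝ) ^ (1 - 2/3 : ℝ) := Real.one_le_rpow hM1' (by norm_num)
    have h12 : ∑ x ∈ Finset.Icc (0:ℤ) M, ph C (2/3) x ≤ (1 + C * 3) * (M:ℝ) ^ (1 - 2/3 : ℝ) := by
      refine h5.trans ?_
      have : C * ((M:ℝ) ^ (1 - 2/3 : ℝ) / (1 - 2/3)) = C * 3 * (M:ℝ) ^ (1 - 2/3 : ℝ) := by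
        ring
      rw [this]
      nlinarith
    rw [e2]
    calc 4 * ((M : ℝ) + 1) * ∑ x ∈ Finset.Icc (0:ℤ) M, ph C (2/3) x ≤
          (8 * (M : ℝ)) * ((1 + C * 3) * (M:ℝ) ^ (1 - 2/3 : ℝ)) :=
          mul_le_mul (by linarith) h12 (Finset.sum_nonneg fun x _ => ph_nonneg hC x) (by positivity)
      _ = _ := by ring
  linarith

end Pool.Agent.W2helper77.OM
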